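import Mathlib

/-!
# Free actions and the extension of free finite subgroups of the symmetric group of the naturals
-/

namespace UnivAct

open MulAction

/-- Two free actions with equinumerous orbit spaces are isomorphic. -/
theorem exists_equivariant_equiv {A U V : Type*} [Group A] [MulAction A U] [MulAction A V]
    (hU : ∀ (a : A) (u : U), a • u = u → a = 1) (hV : ∀ (a : A) (v : V), a • v = v → a = 1)
    (e : Quotient (orbitRel A U) ≃ Quotient (orbitRel A V)) :
    ∃ F : U ≃ V, ∀ (a : A) (u : U), F (a • u) = a • F u := by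
  classical
  have hex : ∀ u : U, ∃ a : A, u = a • (Quotient.mk (orbitRel A U) u).out := by
    intro u
    have h : (orbitRel A U).r u (Quotient.mk (orbitRel A U) u).out :=
      (orbitRel A U).symm (Quotient.mk_out (s := orbitRel A U) u)
    obtain ⟨a, ha⟩ := h
    exact ⟨a, ha.symm⟩
  choose α hα using hex
  have hkey : ∀ (a : A) (c : Quotient (orbitRel A U)), α (a • c.out) = a ∧
      Quotient.mk (orbitRel A U) (a • c.out) = c := by
    intro a c
    have h1 : Quotient.mk (orbitRel A U) (a • c.out) = c := by
      conv_rhs => rw [← c.out_eq]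
      apply Quotient.sound
      exact ⟨a, rfl⟩
    refine ⟨?_, h1⟩
    have h2 := hα (a • c.out)
    rw [h1] at h2
    have h3 : ((α (a • c.out))⁻¹ * a) • c.out = c.out := by
      rw [mul_smul, inv_smul_eq_iff]
      exact h2
    have := hU _ _ h3
    rw [inv_mul_eq_one] at this
    exact this
  let F : U → V := fun u => α u • (e (Quotient.mk _ u)).out
  have hF : ∀ (a : A) (c : Quotient (orbitRel A U)), F (a • c.out) = a • (e c).out := by
    intro a c
    simp only [F]
    rw [(hkey a c).1, (hkey a c).2]
  have hsurj : Function.Surjective F := by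
    intro v
    have h : (orbitRel A V).r v (Quotient.mk (orbitRel A V) v).out :=
      (orbitRel A V).symm (Quotient.mk_out (s := orbitRel A V) v)
    obtain ⟨b, hb⟩ := h
    refine ⟨b • (e.symm (Quotient.mk _ v)).out, ?_⟩
    rw [hF, Equiv.apply_symm_apply]
    exact hb
  have hinj : Function.Injective F := by
    intro u v huv
    rw [hα u, hα v, hF, hF] at huv
    have h1 : Quotient.mk (orbitRel A V) (α u • (e (Quotient.mk _ u)).out) = e (Quotient.mk _ u) := by
      conv_rhs => rw [← (e (Quotient.mk _ u)).out_eq]
      exact Quotient.sound ⟨_, rfl⟩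
    have h2 : Quotient.mk (orbitRel A V) (α v • (e (Quotient.mk _ v)).out) = e (Quotient.mk _ v) := by
      conv_rhs => rw [← (e (Quotient.mk _ v)).out_eq]
      exact Quotient.sound ⟨_, rfl⟩
    have h3 : Quotient.mk (orbitRel A U) u = Quotient.mk (orbitRel A U) v := by
      apply e.injective
      rw [← h1, ← h2, huv]
    rw [hα u, hα v]
    rw [← h3] at huv ⊢
    have h4 : ((α v)⁻¹ * α u) • (e (Quotient.mk _ u)).out = (e (Quotient.mk _ u)).out := by
      rw [mul_smul, huv, inv_smul_smul]
    have := hV _ _ h4
    rw [inv_mul_eq_one] at this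
    rw [this]
  refine ⟨Equiv.ofBijective F ⟨hinj, hsurj⟩, ?_⟩
  intro a u
  change F (a • u) = a • F u
  conv_lhs => rw [hα u, ← mul_smul, hF]
  conv_rhs => rw [hα u, hF]
  rw [mul_smul]

/-- Explicit form: equinumerous finite free actions of a finite group are isomorphic. -/
theorem exists_equivariant_bij_finite {A U V : Type*} [Group A] [Finite A] [Finite U] [Finite V]
    (aU : A → U → U) (aV : A → V → V)
    (hU1 : ∀ u, aU 1 u = u) (hUm : ∀ a b u, aU (a * b) u = aU a (aU b u))
    (hV1 : ∀ v, aV 1 v = v) (hVm : ∀ a b v, aV (a * b) v = aV a (aV b v))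
    (hU : ∀ (a : A) (u : U), aU a u = u → a = 1) (hV : ∀ (a : A) (v : V), aV a v = v → a = 1)
    (hc : Nat.card U = Nat.card V) :
    ∃ F : U ≃ V, ∀ (a : A) (u : U), F (aU a u) = aV a (F u) := by
  let iU : MulAction A U := { smul := aU, one_smul := hU1, mul_smul := hUm }
  let iV : MulAction A V := { smul := aV, one_smul := hV1, mul_smul := hVm }
  have h1 : ∀ u : U, stabilizer A u = ⊥ := by
    intro u
    rw [eq_bot_iff]
    intro a ha
    exact hU a u ha
  have h2 : ∀ v : V, stabilizer A v = ⊥ := by
    intro v
    rw [eq_bot_iff]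
    intro a ha
    exact hV a v ha
  have e1 := Nat.card_congr (selfEquivOrbitsQuotientProd (G := A) h1)
  have e2 := Nat.card_congr (selfEquivOrbitsQuotientProd (G := A) h2)
  rw [Nat.card_prod] at e1 e2
  have hA : 0 < Nat.card A := Nat.card_pos
  have h3 : Nat.card (Quotient (orbitRel A U)) = Nat.card (Quotient (orbitRel A V)) := by
    apply Nat.eq_of_mul_eq_mul_right hA
    rw [← e1, ← e2, hc]
  obtain ⟨e⟩ : Nonempty (Quotient (orbitRel A U) ≃ Quotient (orbitRel A V)) :=
    Finite.card_eq.mp h3
  exact exists_equivariant_equiv hU hV e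

/-- Explicit form: free actions of a finite group on countably infinite sets are isomorphic. -/
theorem exists_equivariant_bij_countable {A U V : Type*} [Group A] [Finite A]
    [Countable U] [Infinite U] [Countable V] [Infinite V]
    (aU : A → U → U) (aV : A → V → V)
    (hU1 : ∀ u, aU 1 u = u) (hUm : ∀ a b u, aU (a * b) u = aU a (aU b u))
    (hV1 : ∀ v, aV 1 v = v) (hVm : ∀ a b v, aV (a * b) v = aV a (aV b v))
    (hU : ∀ (a : A) (u : U), aU a u = u → a = 1) (hV : ∀ (a : A) (v : V), aV a v = v → a = 1) :
    ∃ F : U ≃ V, ∀ (a : A) (u : U), F (aU a u) = aV a (F u) := by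
  let iU : MulAction A U := { smul := aU, one_smul := hU1, mul_smul := hUm }
  let iV : MulAction A V := { smul := aV, one_smul := hV1, mul_smul := hVm }
  have h1 : ∀ u : U, stabilizer A u = ⊥ := by
    intro u
    rw [eq_bot_iff]
    intro a ha
    exact hU a u ha
  have h2 : ∀ v : V, stabilizer A v = ⊥ := by
    intro v
    rw [eq_bot_iff]
    intro a ha
    exact hV a v ha
  have i1 : Infinite (Quotient (orbitRel A U)) := by
    by_contra hcon
    rw [not_infinite_iff_finite] at hcon
    have := Finite.of_equiv _ (selfEquivOrbitsQuotientProd (G := A) h1).symm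
    exact not_finite U
  have i2 : Infinite (Quotient (orbitRel A V)) := by
    by_contra hcon
    rw [not_infinite_iff_finite] at hcon
    have := Finite.of_equiv _ (selfEquivOrbitsQuotientProd (G := A) h2).symm
    exact not_finite V
  obtain ⟨e⟩ : Nonempty (Quotient (orbitRel A U) ≃ Quotient (orbitRel A V)) :=
    nonempty_equiv_of_countable
  exact exists_equivariant_equiv hU hV e

/-- The symmetric group of the naturals, ambient group of the construction. -/
abbrev GG : Type := Equiv.Perm ℕ

/-- A subgroup of the symmetric group of the naturals acting freely. -/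
def IsFree (K : Subgroup GG) : Prop := ∀ g ∈ K, ∀ n : ℕ, g n = n → g = 1

/-- Any finite overgroup of a finite free subgroup `K` of `GG` embeds freely into `GG` over `K`. -/
theorem exists_free_embedding (K : Subgroup GG) [Finite K] (hK : IsFree K) {Q : Type*} [Group Q]
    [Finite Q] (j : K →* Q) (hj : Function.Injective j) :
    ∃ i : Q →* GG, Function.Injective i ∧ IsFree i.range ∧ ∀ k : K, i (j k) = (k : GG) := by
  have : Nonempty (Q × ℕ) := ⟨(1, 0)⟩
  obtain ⟨F, hF⟩ := exists_equivariant_bij_countable (A := K) (U := ℕ) (V := Q × ℕ)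
    (fun k n => (k : GG) n) (fun k x => (j k * x.1, x.2)) (fun _ => rfl) (fun _ _ _ => rfl)
    (fun v => by simp) (fun a b v => by simp [mul_assoc])
    (fun a n h => Subtype.ext (hK a a.2 n h))
    (fun a v h => by
      have h1 : j a * v.1 = v.1 := congrArg Prod.fst h
      have h2 : j a = 1 := by simpa using h1
      exact hj (by rw [h2, map_one]))
  let act : Q → Equiv.Perm (Q × ℕ) := fun q => (Equiv.mulLeft q).prodCongr (Equiv.refl ℕ)
  have hact : ∀ q x, act q x = (q * x.1, x.2) := fun q x => rfl
  let i : Q →* GG :=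
    { toFun := fun q => (F.trans (act q)).trans F.symm
      map_one' := by
        ext n
        simp [hact]
      map_mul' := by
        intro a b
        ext n
        simp [hact, mul_assoc] }
  have hi : ∀ q n, i q n = F.symm (q * (F n).1, (F n).2) := fun q n => rfl
  have hfix : ∀ q n, i q n = n → q = 1 := by
    intro q n h
    rw [hi, Equiv.symm_apply_eq] at h
    have h1 : q * (F n).1 = (F n).1 := congrArg Prod.fst h
    simpa using h1
  refine ⟨i, ?_, ?_, ?_⟩
  · rw [injective_iff_map_eq_one]
    intro q hq
    exact hfix q 0 (by rw [hq]; rfl)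
  · rintro _ ⟨q, rfl⟩ n h
    rw [hfix q n h, map_one]
  · intro k
    ext n
    rw [hi]
    exact (Equiv.symm_apply_eq F).mpr (hF k n).symm

end UnivAct
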