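import Mathlib
import Pool.Agent.Lib.MP_a2e83c_al.Free

/-!
# Completing a partial equivariant permutation of a finite free set
-/

namespace UnivAct

theorem exists_completion {K X : Type*} [Group K] [Finite K] (E : Subgroup (K × K))
    (hE1 : ∀ e ∈ E, e.1 = 1 → e.2 = 1) (hE2 : ∀ e ∈ E, e.2 = 1 → e.1 = 1)
    [MulAction K X] (hfree : ∀ (k : K) (x : X), k • x = x → k = 1)
    (t : X ≃ X) (ht : ∀ e ∈ E, ∀ x, t (e.1 • x) = e.2 • t x)
    (S : Set X) (hS : S.Finite) (hSK : ∀ (k : K) (x : X), x ∈ S → k • x ∈ S) :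
    ∃ T : Equiv.Perm S, (∀ e ∈ E, ∀ x : S, (T ⟨e.1 • (x : X), hSK _ _ x.2⟩ : X) = e.2 • (T x : X)) ∧
      (∀ x : S, t x ∈ S → (T x : X) = t x) ∧ (∀ x : S, t x ∉ S → t.symm (T x) ∉ S) := by
  classical
  have hSfin : Finite S := hS
  have ht' : ∀ e ∈ E, ∀ x, t.symm (e.2 • x) = e.1 • t.symm x := by
    intro e he x
    rw [Equiv.symm_apply_eq, ht e he, Equiv.apply_symm_apply]
  let U := {x : S // t x ∉ S}
  let V := {x : S // t.symm x ∉ S}
  have hinv : ∀ (k : K) (x : X), k • x ∈ S → x ∈ S := by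
    intro k x h
    have := hSK k⁻¹ _ h
    rwa [inv_smul_smul] at this
  let aU : E → U → U := fun e u => ⟨⟨(e : K × K).1 • (u.1 : X), hSK _ _ u.1.2⟩, by
    intro h
    apply u.2
    have h2 : t ((e : K × K).1 • (u.1 : X)) ∈ S := h
    rw [ht e e.2] at h2
    exact hinv _ _ h2⟩
  let aV : E → V → V := fun e v => ⟨⟨(e : K × K).2 • (v.1 : X), hSK _ _ v.1.2⟩, by
    intro h
    apply v.2
    have h2 : t.symm ((e : K × K).2 • (v.1 : X)) ∈ S := h
    rw [ht' e e.2] at h2
    exact hinv _ _ h2⟩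
  have hcard : Nat.card U = Nat.card V := by
    have e1 : {x : S // t x ∈ S} ≃ {x : S // t.symm x ∈ S} :=
      { toFun := fun x => ⟨⟨t x.1, x.2⟩, by simp⟩
        invFun := fun x => ⟨⟨t.symm x.1, x.2⟩, by simp⟩
        left_inv := fun x => by ext; simp
        right_inv := fun x => by ext; simp }
    have c1 : Nat.card S = Nat.card {x : S // t x ∈ S} + Nat.card U := by
      rw [← Nat.card_sum]
      exact Nat.card_congr (Equiv.sumCompl (fun x : S => t x ∈ S)).symm
    have c2 : Nat.card S = Nat.card {x : S // t.symm x ∈ S} + Nat.card V := by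
      rw [← Nat.card_sum]
      exact Nat.card_congr (Equiv.sumCompl (fun x : S => t.symm x ∈ S)).symm
    have c3 := Nat.card_congr e1
    omega
  obtain ⟨F, hF⟩ := exists_equivariant_bij_finite (A := E) (U := U) (V := V) aU aV
    (fun u => by
      apply Subtype.ext; apply Subtype.ext
      simp [aU])
    (fun a b u => by
      apply Subtype.ext; apply Subtype.ext
      simp [aU, mul_smul])
    (fun u => by
      apply Subtype.ext; apply Subtype.ext
      simp [aV])
    (fun a b u => by
      apply Subtype.ext; apply Subtype.ext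
      simp [aV, mul_smul])
    (fun a u h => by
      have h1 : (a : K × K).1 • (u.1 : X) = u.1 := congrArg (fun z : U => (z.1 : X)) h
      have h2 := hfree _ _ h1
      have h3 := hE1 _ a.2 h2
      apply Subtype.ext
      exact Prod.ext h2 h3)
    (fun a u h => by
      have h1 : (a : K × K).2 • (u.1 : X) = u.1 := congrArg (fun z : V => (z.1 : X)) h
      have h2 := hfree _ _ h1
      have h3 := hE2 _ a.2 h2
      apply Subtype.ext
      exact Prod.ext h3 h2)
    hcard
  let T0 : S → S := fun x => if h : t x ∈ S then ⟨t x, h⟩ else (F ⟨x, h⟩).1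
  have hT1 : ∀ x : S, t x ∈ S → (T0 x : X) = t x := by
    intro x h
    simp only [T0, dif_pos h]
  have hT2 : ∀ x : S, ∀ h : t x ∉ S, T0 x = (F ⟨x, h⟩).1 := by
    intro x h
    simp only [T0, dif_neg h]
  have hinj : Function.Injective T0 := by
    intro x y hxy
    by_cases hx : t x ∈ S <;> by_cases hy : t y ∈ S
    · have : t x = t y := by rw [← hT1 x hx, ← hT1 y hy, hxy]
      exact Subtype.ext (t.injective this)
    · exfalso
      have h1 := (F ⟨y, hy⟩).2
      rw [← hT2 y hy, ← hxy, hT1 x hx, Equiv.symm_apply_apply] at h1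
      exact h1 x.2
    · exfalso
      have h1 := (F ⟨x, hx⟩).2
      rw [← hT2 x hx, hxy, hT1 y hy, Equiv.symm_apply_apply] at h1
      exact h1 y.2
    · rw [hT2 x hx, hT2 y hy] at hxy
      have := F.injective (Subtype.ext hxy)
      exact congrArg Subtype.val this
  refine ⟨Equiv.ofBijective T0 (Finite.injective_iff_bijective.mp hinj), ?_, ?_, ?_⟩
  · intro e he x
    change (T0 _ : X) = e.2 • (T0 x : X)
    by_cases hx : t x ∈ S
    · have h1 : t (e.1 • (x : X)) ∈ S := by
        rw [ht e he]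
        exact hSK _ _ hx
      rw [hT1 x hx, hT1 ⟨e.1 • (x : X), hSK _ _ x.2⟩ h1]
      exact ht e he x
    · have h1 : t (e.1 • (x : X)) ∉ S := by
        intro h
        rw [ht e he] at h
        exact hx (hinv _ _ h)
      rw [hT2 x hx, hT2 ⟨e.1 • (x : X), hSK _ _ x.2⟩ h1]
      have := hF ⟨e, he⟩ ⟨x, hx⟩
      exact congrArg (fun z : V => (z.1 : X)) this
  · intro x hx
    exact hT1 x hx
  · intro x hx
    change t.symm (T0 x) ∉ S
    rw [hT2 x hx]
    exact (F ⟨x, hx⟩).2

end UnivAct
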