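import Mathlib
import Pool.Agent.Lib.MP_a2e83c_al.Completion

/-!
# Finite quotients of HNN extensions with large girth, in functional form
-/

namespace UnivAct

open HNNExtension HNNExtension.NormalWord

section word

variable {K : Type} [Group K] {A B : Subgroup K} (φ : A ≃* B)
  {d : TransversalPair K A B}

theorem unitsSMul_toList_of_not_cancels (u : ℤˣ) (w : NormalWord d) (h : ¬ Cancels u w) :
    (unitsSMul φ u w).toList = (u, (((d.compl u).equiv w.head).2 : K)) :: w.toList ∧
    (unitsSMul φ u w).head = (toSubgroupEquiv φ u ((d.compl u).equiv w.head).1 : K) := by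
  unfold unitsSMul
  rw [dif_neg h]
  simp [unitsSMulGroup]

/-- The functional attached to a list of letters. -/
def psi {𝒳 : Type} (ext : ℤˣ → ℕ → 𝒳 → 𝒳) (act : K → 𝒳 → 𝒳) (f0 : 𝒳) :
    List (ℤˣ × K) → 𝒳
  | [] => f0
  | p :: l => ext p.1 l.length (act p.2 (psi ext act f0 l))

/-- The relation in the direction `u`. -/
def dirRel {𝒳 : Type} (r : 𝒳 → 𝒳 → Prop) (u : ℤˣ) (f f' : 𝒳) : Prop :=
  if u = 1 then r f f' else r f' f

omit [Group K] in
theorem psi_mem {𝒳 : Type} {ext : ℤˣ → ℕ → 𝒳 → 𝒳} {act : K → 𝒳 → 𝒳} {f0 : 𝒳}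
    {C : ℕ → Set 𝒳} {L : ℕ} (hf0 : f0 ∈ C 0) (hC : ∀ n k f, f ∈ C n → act k f ∈ C n)
    (hext : ∀ u n, n < L → ∀ f ∈ C n, ext u n f ∈ C (n + 1)) :
    ∀ l : List (ℤˣ × K), l.length ≤ L → psi ext act f0 l ∈ C l.length := by
  intro l
  induction l with
  | nil => intro _; exact hf0
  | cons p l ih =>
    intro hl
    rw [List.length_cons] at hl
    exact hext _ _ (by omega) _ (hC _ _ _ (ih (by omega)))

theorem dirRel_unitsSMul {𝒳 : Type} {ext : ℤˣ → ℕ → 𝒳 → 𝒳} {act : K → 𝒳 → 𝒳} {f0 : 𝒳}
    (act_mul : ∀ a b f, act (a * b) f = act a (act b f))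
    {C : ℕ → Set 𝒳} {L : ℕ} (hf0 : f0 ∈ C 0) (hC : ∀ n k f, f ∈ C n → act k f ∈ C n)
    (hext : ∀ u n, n < L → ∀ f ∈ C n, ext u n f ∈ C (n + 1))
    {r : 𝒳 → 𝒳 → Prop}
    (hr : ∀ a : A, ∀ f f', r f f' → r (act (a : K) f) (act (φ a : K) f'))
    (hrext : ∀ u n, n < L → ∀ f ∈ C n, dirRel r u f (ext u n f))
    (u : ℤˣ) (w : NormalWord d) (h : ¬ Cancels u w) (hw : w.toList.length < L) :
    dirRel r u (act w.head (psi ext act f0 w.toList))
      (act (unitsSMul φ u w).head (psi ext act f0 (unitsSMul φ u w).toList)) := by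
  obtain ⟨h1, h2⟩ := unitsSMul_toList_of_not_cancels φ u w h
  rw [h1, h2]
  have h3 : w.head = (((d.compl u).equiv w.head).1 : K) * (((d.compl u).equiv w.head).2 : K) :=
    ((d.compl u).equiv_fst_mul_equiv_snd w.head).symm
  have h4 : act w.head (psi ext act f0 w.toList) = act (((d.compl u).equiv w.head).1 : K)
      (act (((d.compl u).equiv w.head).2 : K) (psi ext act f0 w.toList)) := by
    rw [← act_mul]
    exact congrArg (fun g => act g (psi ext act f0 w.toList)) h3
  rw [h4]
  have h5 : psi ext act f0 ((u, (((d.compl u).equiv w.head).2 : K)) :: w.toList) =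
    ext u w.toList.length (act (((d.compl u).equiv w.head).2 : K) (psi ext act f0 w.toList)) := rfl
  rw [h5]
  have h6 := hrext u w.toList.length hw _ (hC _ (((d.compl u).equiv w.head).2 : K) _
    (psi_mem hf0 hC hext w.toList hw.le))
  generalize ((d.compl u).equiv w.head).1 = a at *
  rcases Int.units_eq_one_or u with rfl | rfl
  · unfold dirRel at h6 ⊢
    rw [if_pos rfl] at h6 ⊢
    exact hr a _ _ h6
  · unfold dirRel at h6 ⊢
    rw [if_neg (by decide)] at h6 ⊢
    have key : ∀ b : B, ∀ f f' : 𝒳, r f f' → r (act (φ.symm b : K) f) (act (b : K) f') := by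
      intro b f f' hff
      have := hr (φ.symm b) _ _ hff
      rwa [φ.apply_symm_apply] at this
    exact key a _ _ h6

end word

section main

variable {K : Type} [Group K]

/-- First projection of a subgroup of a product. -/
def fstHom (E : Subgroup (K × K)) : E →* K := (MonoidHom.fst K K).comp E.subtype

/-- Second projection of a subgroup of a product. -/
def sndHom (E : Subgroup (K × K)) : E →* K := (MonoidHom.snd K K).comp E.subtype

theorem fstHom_inj (E : Subgroup (K × K)) (hE1 : ∀ e ∈ E, e.1 = 1 → e.2 = 1) :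
    Function.Injective (fstHom E) := by
  rw [injective_iff_map_eq_one]
  intro e he
  exact Subtype.ext (Prod.ext he (hE1 _ e.2 he))

theorem sndHom_inj (E : Subgroup (K × K)) (hE2 : ∀ e ∈ E, e.2 = 1 → e.1 = 1) :
    Function.Injective (sndHom E) := by
  rw [injective_iff_map_eq_one]
  intro e he
  exact Subtype.ext (Prod.ext (hE2 _ e.2 he) he)

theorem near_hnn [Finite K] (E : Subgroup (K × K))
    (hE1 : ∀ e ∈ E, e.1 = 1 → e.2 = 1) (hE2 : ∀ e ∈ E, e.2 = 1 → e.1 = 1) (L : ℕ) :
    ∃ (Ω : Type) (_ : Finite Ω) (j : K →* Equiv.Perm Ω) (T : Equiv.Perm Ω) (ω0 : Ω),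
      Function.Injective j ∧ (∀ e ∈ E, T * j e.1 = j e.2 * T) ∧
      ∀ (𝒳 : Type) (act : K → 𝒳 → 𝒳), (∀ f, act 1 f = f) →
        (∀ a b f, act (a * b) f = act a (act b f)) →
        ∀ (C : ℕ → Set 𝒳), (∀ n k f, f ∈ C n → act k f ∈ C n) →
        ∀ (r : 𝒳 → 𝒳 → Prop), (∀ e ∈ E, ∀ f f', r f f' → r (act e.1 f) (act e.2 f')) →
        (∀ n < L, ∀ f ∈ C n, ∃ f' ∈ C (n + 1), r f f') →
        (∀ n < L, ∀ f' ∈ C n, ∃ f ∈ C (n + 1), r f f') →
        (∀ f ∈ C L, ∀ f' ∈ C L, r f f') →
        ∀ f0 ∈ C 0, ∃ Φ : Ω → 𝒳, Φ ω0 = f0 ∧ (∀ k ω, Φ (j k ω) = act k (Φ ω)) ∧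
          (∀ ω, ∃ n ≤ L, Φ ω ∈ C n) ∧ ∀ ω, r (Φ ω) (Φ (T ω)) := by
  classical
  let A := (fstHom E).range
  let B := (sndHom E).range
  let φ : A ≃* B := (MonoidHom.ofInjective (fstHom_inj E hE1)).symm.trans
    (MonoidHom.ofInjective (sndHom_inj E hE2))
  have hφ : ∀ a : A, ((a : K), (φ a : K)) ∈ E := by
    intro a
    obtain ⟨e, rfl⟩ := (MonoidHom.ofInjective (fstHom_inj E hE1)).surjective a
    have h1 : φ (MonoidHom.ofInjective (fstHom_inj E hE1) e) =
        MonoidHom.ofInjective (sndHom_inj E hE2) e := by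
      simp [φ]
    rw [h1]
    exact e.2
  have hφ' : ∀ e (he : e ∈ E), (φ ⟨e.1, ⟨⟨e, he⟩, rfl⟩⟩ : K) = e.2 := by
    intro e he
    have h1 := hφ ⟨e.1, ⟨⟨e, he⟩, rfl⟩⟩
    have h2 := E.mul_mem h1 (E.inv_mem he)
    have h3 := hE1 _ h2 (by simp)
    simpa [mul_inv_eq_one] using h3
  obtain ⟨d⟩ := TransversalPair.nonempty K A B
  let X := NormalWord d
  let t : X ≃ X := unitsSMulEquiv φ
  let S : Set X := {w | w.toList.length ≤ L}
  have hS : S.Finite := by
    have h1 : (Set.univ ×ˢ {l : List (ℤˣ × K) | l.length ≤ L} : Set (K × List (ℤˣ × K))).Finite :=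
      Set.Finite.prod Set.finite_univ (List.finite_length_le _ _)
    apply Set.Finite.of_finite_image (f := fun w : X => (w.head, w.toList))
    · apply h1.subset
      rintro _ ⟨w, hw, rfl⟩
      exact ⟨trivial, hw⟩
    · intro w _ w' _ h
      exact NormalWord.ext (congrArg Prod.fst h) (congrArg Prod.snd h)
  have hfree : ∀ (k : K) (x : X), k • x = x → k = 1 := by
    intro k x h
    have h1 : k * x.head = x.head := congrArg (fun w : X => w.head) h
    simpa using h1
  have ht : ∀ e ∈ E, ∀ x : X, t (e.1 • x) = e.2 • t x := by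
    intro e he x
    have := unitsSMul_one_group_smul φ (⟨e.1, ⟨⟨e, he⟩, rfl⟩⟩ : A) x
    rw [hφ' e he] at this
    exact this
  have hSK : ∀ (k : K) (x : X), x ∈ S → k • x ∈ S := fun k x hx => hx
  obtain ⟨T, hT1, hT2, hT3⟩ := exists_completion E hE1 hE2 hfree t ht S hS hSK
  have hSfin : Finite S := hS
  let j : K →* Equiv.Perm S :=
    { toFun := fun k =>
        { toFun := fun x => ⟨k • (x : X), hSK _ _ x.2⟩
          invFun := fun x => ⟨k⁻¹ • (x : X), hSK _ _ x.2⟩
          left_inv := fun x => by simp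
          right_inv := fun x => by simp }
      map_one' := by
        apply Equiv.ext; intro x; apply Subtype.ext
        exact one_smul K (x : X)
      map_mul' := by
        intro a b
        apply Equiv.ext; intro x; apply Subtype.ext
        exact mul_smul a b (x : X) }
  have hj : ∀ k x, ((j k x : S) : X) = k • (x : X) := fun _ _ => rfl
  have hL0 : (NormalWord.empty : X) ∈ S := by
    change ([] : List (ℤˣ × K)).length ≤ L
    simp
  refine ⟨S, hSfin, j, T, ⟨NormalWord.empty, hL0⟩, ?_, ?_, ?_⟩
  · rw [injective_iff_map_eq_one]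
    intro k hk
    have h1 := hj k ⟨NormalWord.empty, hL0⟩
    rw [hk] at h1
    exact hfree k _ h1.symm
  · intro e he
    apply Equiv.ext; intro x; apply Subtype.ext
    exact hT1 e he x
  · intro 𝒳 act act_one act_mul C hC r hr ext1 ext2 fin f0 hf0
    have hext0 : ∀ (u : ℤˣ) (n : ℕ) (f : 𝒳), ∃ f' : 𝒳, n < L → f ∈ C n →
        f' ∈ C (n + 1) ∧ dirRel r u f f' := by
      intro u n f
      by_cases hn : n < L ∧ f ∈ C n
      · rcases Int.units_eq_one_or u with rfl | rfl
        · obtain ⟨f', h1, h2⟩ := ext1 n hn.1 f hn.2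
          exact ⟨f', fun _ _ => ⟨h1, by unfold dirRel; rw [if_pos rfl]; exact h2⟩⟩
        · obtain ⟨f', h1, h2⟩ := ext2 n hn.1 f hn.2
          exact ⟨f', fun _ _ => ⟨h1, by unfold dirRel; rw [if_neg (by decide)]; exact h2⟩⟩
      · exact ⟨f, fun h1 h2 => absurd ⟨h1, h2⟩ hn⟩
    choose ext hext using hext0
    have hmem := fun u n (hn : n < L) f (hf : f ∈ C n) => (hext u n f hn hf).1
    have hrel := fun u n (hn : n < L) f (hf : f ∈ C n) => (hext u n f hn hf).2
    have hrA : ∀ a : A, ∀ f f', r f f' → r (act (a : K) f) (act (φ a : K) f') :=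
      fun a f f' h => hr _ (hφ a) f f' h
    have key := dirRel_unitsSMul (d := d) φ act_mul hf0 hC hmem hrA hrel
    let Φ : S → 𝒳 := fun w => act w.1.head (psi ext act f0 w.1.toList)
    have hΦL : ∀ w : S, w.1.toList.length = L → Φ w ∈ C L := by
      intro w hw
      have := psi_mem (C := C) (L := L) hf0 hC hmem w.1.toList w.2
      rw [hw] at this
      exact hC _ _ _ this
    refine ⟨Φ, ?_, ?_, ?_, ?_⟩
    · exact act_one _
    · intro k w
      change act (k * w.1.head) _ = act k (act _ _)
      rw [act_mul]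
      rfl
    · intro w
      exact ⟨_, w.2, hC _ _ _ (psi_mem (C := C) (L := L) hf0 hC hmem w.1.toList w.2)⟩
    · intro w
      by_cases hw : t w.1 ∈ S
      · have h1 : ((T w : S) : X) = unitsSMul φ 1 w.1 := hT2 w hw
        have h2 : Φ (T w) = act (unitsSMul φ 1 w.1).head
            (psi ext act f0 (unitsSMul φ 1 w.1).toList) := by
          simp only [Φ]
          rw [h1]
        rw [h2]
        by_cases hc : Cancels 1 w.1
        · have hc' : ¬ Cancels (-1) (unitsSMul φ 1 w.1) := by
            rw [unitsSMul_cancels_iff]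
            exact fun h => h hc
          have h3 : unitsSMul φ (-1) (unitsSMul φ 1 w.1) = w.1 := unitsSMul_neg φ 1 w.1
          have h4 := (unitsSMul_toList_of_not_cancels φ (-1) _ hc').1
          rw [h3] at h4
          have h5 : (unitsSMul φ 1 w.1).toList.length < L := by
            have h6 : w.1.toList.length ≤ L := w.2
            rw [h4, List.length_cons] at h6
            omega
          have h6 := key (-1) _ hc' h5
          rw [h3] at h6
          unfold dirRel at h6
          rw [if_neg (by decide)] at h6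
          exact h6
        · have h4 := (unitsSMul_toList_of_not_cancels φ 1 _ hc).1
          have h5 : w.1.toList.length < L := by
            have h6 : (unitsSMul φ 1 w.1).toList.length ≤ L := hw
            rw [h4, List.length_cons] at h6
            omega
          have h6 := key 1 _ hc h5
          unfold dirRel at h6
          rw [if_pos rfl] at h6
          exact h6
      · apply fin
        · apply hΦL
          have hc : ¬ Cancels 1 w.1 := by
            intro hc
            have hc' : ¬ Cancels (-1) (unitsSMul φ 1 w.1) := by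
              rw [unitsSMul_cancels_iff]
              exact fun h => h hc
            have h3 : unitsSMul φ (-1) (unitsSMul φ 1 w.1) = w.1 := unitsSMul_neg φ 1 w.1
            have h4 := (unitsSMul_toList_of_not_cancels φ (-1) _ hc').1
            rw [h3] at h4
            apply hw
            have h6 : w.1.toList.length ≤ L := w.2
            rw [h4, List.length_cons] at h6
            change (unitsSMul φ 1 w.1).toList.length ≤ L
            omega
          have h4 := (unitsSMul_toList_of_not_cancels φ 1 _ hc).1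
          have h5 : ¬ (unitsSMul φ 1 w.1).toList.length ≤ L := hw
          rw [h4, List.length_cons] at h5
          have h6 : w.1.toList.length ≤ L := w.2
          omega
        · apply hΦL
          have hw' := hT3 w hw
          set v := T w with hv
          have hc : ¬ Cancels (-1) v.1 := by
            intro hc
            have hc' : ¬ Cancels (- (-1)) (unitsSMul φ (-1) v.1) := by
              rw [unitsSMul_cancels_iff]
              exact fun h => h hc
            have h3 : unitsSMul φ (- (-1)) (unitsSMul φ (-1) v.1) = v.1 := unitsSMul_neg φ (-1) v.1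
            have h4 := (unitsSMul_toList_of_not_cancels φ (- (-1)) _ hc').1
            rw [h3] at h4
            apply hw'
            have h6 : v.1.toList.length ≤ L := v.2
            rw [h4, List.length_cons] at h6
            change (unitsSMul φ (-1) v.1).toList.length ≤ L
            omega
          have h4 := (unitsSMul_toList_of_not_cancels φ (-1) _ hc).1
          have h5 : ¬ (unitsSMul φ (-1) v.1).toList.length ≤ L := hw'
          rw [h4, List.length_cons] at h5
          have h6 : v.1.toList.length ≤ L := v.2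
          omega

end main

end UnivAct
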