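import Mathlib
import Pool.Agent.Lib.MP_a2e83c_al.Hnn

/-!
# Conditions: finite stages of the universal action, given by classes of functionals
-/

namespace UnivAct

open Classical

/-- The points of the construction: pairs of a group element and a symbol. -/
abbrev Pt : Type := GG × ℕ

/-- Translation of points. -/
def tr (g : GG) (x : Pt) : Pt := (g * x.1, x.2)

@[simp] theorem tr_one (x : Pt) : tr 1 x = x := by simp [tr]

theorem tr_mul (g h : GG) (x : Pt) : tr (g * h) x = tr g (tr h x) := by simp [tr, mul_assoc]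

theorem tr_tr (g h : GG) (x : Pt) : tr g (tr h x) = tr (g * h) x := (tr_mul g h x).symm

/-- The finite set of points of a stage. -/
def dom (K : Subgroup GG) (M : ℕ) : Set Pt := {x | x.1 ∈ K ∧ x.2 < M}

theorem tr_mem_dom {K K' : Subgroup GG} {M M' : ℕ} (hK : K ≤ K') (hM : M ≤ M') {g : GG}
    (hg : g ∈ K') {x : Pt} (hx : x ∈ dom K M) : tr g x ∈ dom K' M' :=
  ⟨K'.mul_mem hg (hK hx.1), lt_of_lt_of_le hx.2 hM⟩

/-- A finite stage. -/
structure Cond where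
  K : Subgroup GG
  M : ℕ
  Ls : Set (Pt → ℝ)
  fin : Finite K
  free : IsFree K
  loc : ∀ f f' : Pt → ℝ, (∀ x ∈ dom K M, f x = f' x) → f ∈ Ls → f' ∈ Ls
  inv : ∀ g ∈ K, ∀ f ∈ Ls, (fun x => f (tr g x)) ∈ Ls
  star : ∀ f ∈ Ls, ∀ a c : ℝ, 0 ≤ a → a ≤ 1 → (fun x => a * f x + c) ∈ Ls
  zero : (fun _ => 0) ∈ Ls
  osc : ∃ D : ℝ, 0 ≤ D ∧ ∀ f ∈ Ls, ∀ x ∈ dom K M, ∀ y ∈ dom K M, |f x - f y| ≤ D

/-- Extension of stages. -/
structure Cond.Le (c c' : Cond) : Prop where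
  K : c.K ≤ c'.K
  M : c.M ≤ c'.M
  sub : c'.Ls ⊆ c.Ls
  ext : ∀ f ∈ c.Ls, ∃ f' ∈ c'.Ls, ∀ x ∈ dom c.K c.M, f' x = f x

theorem Cond.Le.refl (c : Cond) : c.Le c :=
  ⟨le_rfl, le_rfl, subset_rfl, fun f hf => ⟨f, hf, fun _ _ => rfl⟩⟩

theorem Cond.Le.trans {c c' c'' : Cond} (h : c.Le c') (h' : c'.Le c'') : c.Le c'' := by
  refine ⟨h.K.trans h'.K, h.M.trans h'.M, h'.sub.trans h.sub, ?_⟩
  intro f hf
  obtain ⟨f1, hf1, h1⟩ := h.ext f hf
  obtain ⟨f2, hf2, h2⟩ := h'.ext f1 hf1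
  refine ⟨f2, hf2, fun x hx => ?_⟩
  rw [h2 x ⟨h.K hx.1, lt_of_lt_of_le hx.2 h.M⟩, h1 x hx]

/-- Two families of points (indexed by `E` and `R`) carry nearly the same functionals. -/
def NearIso (Ls : Set (Pt → ℝ)) (E : Subgroup (GG × GG)) (R : Set (Pt × Pt)) (ε : ℝ) : Prop :=
  (∀ f ∈ Ls, ∃ f' ∈ Ls, ∀ e ∈ E, ∀ r ∈ R, |f (tr e.1 r.1) - f' (tr e.2 r.2)| ≤ ε) ∧
  (∀ f' ∈ Ls, ∃ f ∈ Ls, ∀ e ∈ E, ∀ r ∈ R, |f (tr e.1 r.1) - f' (tr e.2 r.2)| ≤ ε)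

/-- Two families of points are nearly conjugate. -/
def NearConj (K : Subgroup GG) (Ls : Set (Pt → ℝ)) (E : Subgroup (GG × GG)) (R : Set (Pt × Pt))
    (ε : ℝ) : Prop :=
  ∃ t ∈ K, (∀ e ∈ E, t * e.1 = e.2 * t) ∧ ∀ f ∈ Ls, ∀ r ∈ R, |f (tr t r.1) - f r.2| ≤ 2 * ε

/-- The functionals of slope `l` and size `b`. -/
def Cl (c : Cond) (l b : ℝ) : Set (Pt → ℝ) :=
  {f | ∃ h ∈ c.Ls, ∃ c0 : ℝ, ∀ x ∈ dom c.K c.M, f x = l * h x + c0 ∧ |f x| ≤ b}

theorem Cl_sub (c : Cond) {l b : ℝ} (h0 : 0 ≤ l) (h1 : l ≤ 1) : Cl c l b ⊆ c.Ls := by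
  rintro f ⟨h, hh, c0, hf⟩
  exact c.loc _ _ (fun x hx => (hf x hx).1.symm) (c.star h hh l c0 h0 h1)

theorem Cl_mono (c : Cond) {l b b' : ℝ} (h : b ≤ b') : Cl c l b ⊆ Cl c l b' := by
  rintro f ⟨g, hg, c0, hf⟩
  exact ⟨g, hg, c0, fun x hx => ⟨(hf x hx).1, (hf x hx).2.trans h⟩⟩

theorem Cl_act (c : Cond) {l b : ℝ} (k : c.K) {f : Pt → ℝ} (hf : f ∈ Cl c l b) :
    (fun x => f (tr (k : GG)⁻¹ x)) ∈ Cl c l b := by
  obtain ⟨g, hg, c0, hf⟩ := hf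
  refine ⟨_, c.inv _ (c.K.inv_mem k.2) g hg, c0, fun x hx => ?_⟩
  exact hf _ (tr_mem_dom le_rfl le_rfl (c.K.inv_mem k.2) hx)

section step

/-- First phase, forward. -/
theorem phase1 (c : Cond) {ε D l l' b : ℝ} {f : Pt → ℝ} {E : Subgroup (GG × GG)} {R : Set (Pt × Pt)}
    (hE : ∀ e ∈ E, e.1 ∈ c.K ∧ e.2 ∈ c.K)
    (hR : ∀ r ∈ R, r.1 ∈ dom c.K c.M ∧ r.2 ∈ dom c.K c.M) (hε : 0 < ε)
    (hD : ∀ f ∈ c.Ls, ∀ x ∈ dom c.K c.M, ∀ y ∈ dom c.K c.M, |f x - f y| ≤ D) (hD0 : 0 ≤ D)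
    (hiso : ∀ f ∈ c.Ls, ∃ f' ∈ c.Ls, ∀ e ∈ E, ∀ r ∈ R, |f (tr e.1 r.1) - f' (tr e.2 r.2)| ≤ ε)
    (hb : 0 ≤ b)
    (hl' : 0 ≤ l') (hll' : l' ≤ l) (hl1 : l ≤ 1) (hdiff : (l - l') * D ≤ ε)
    (hf : f ∈ Cl c l b) :
    ∃ f' ∈ Cl c l' (b + (D + 2 * ε)), ∀ e ∈ E, ∀ r ∈ R,
      |f (tr e.1 r.1) - f' (tr e.2 r.2)| ≤ 2 * ε := by
  rcases R.eq_empty_or_nonempty with hRe | ⟨r0, hr0⟩
  · refine ⟨fun _ => 0, ⟨fun _ => 0, c.zero, 0, fun x _ => ⟨by simp, ?_⟩⟩, ?_⟩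
    · simp only [abs_zero]; linarith
    · intro e _ r hr
      rw [hRe] at hr
      exact absurd hr (Set.notMem_empty r)
  · obtain ⟨h, hh, c0, hf⟩ := hf
    obtain ⟨h', hh', hhh'⟩ := hiso h hh
    set x0 : Pt := r0.2 with hx0
    have hx0d : x0 ∈ dom c.K c.M := (hR r0 hr0).2
    have hclose : ∀ e ∈ E, ∀ r ∈ R,
        |f (tr e.1 r.1) - (l' * h' (tr e.2 r.2) + (c0 + (l - l') * h' x0))| ≤ 2 * ε := by
      intro e he r hr
      have hx : tr e.1 r.1 ∈ dom c.K c.M := tr_mem_dom le_rfl le_rfl (hE e he).1 (hR r hr).1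
      have hy : tr e.2 r.2 ∈ dom c.K c.M := tr_mem_dom le_rfl le_rfl (hE e he).2 (hR r hr).2
      rw [(hf _ hx).1]
      have h1 := hhh' e he r hr
      have h2 := hD h' hh' _ hy _ hx0d
      have e1 : l * h (tr e.1 r.1) + c0 - (l' * h' (tr e.2 r.2) + (c0 + (l - l') * h' x0)) =
          l * (h (tr e.1 r.1) - h' (tr e.2 r.2)) + (l - l') * (h' (tr e.2 r.2) - h' x0) := by ring
      rw [e1]
      have hl0 : 0 ≤ l := hl'.trans hll'
      calc |l * (h (tr e.1 r.1) - h' (tr e.2 r.2)) + (l - l') * (h' (tr e.2 r.2) - h' x0)|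
          ≤ |l * (h (tr e.1 r.1) - h' (tr e.2 r.2))| + |(l - l') * (h' (tr e.2 r.2) - h' x0)| :=
            abs_add_le _ _
        _ = l * |h (tr e.1 r.1) - h' (tr e.2 r.2)| + (l - l') * |h' (tr e.2 r.2) - h' x0| := by
            rw [abs_mul, abs_mul, abs_of_nonneg hl0, abs_of_nonneg (sub_nonneg.mpr hll')]
        _ ≤ 1 * ε + (l - l') * D := by
            apply add_le_add
            · exact mul_le_mul hl1 h1 (abs_nonneg _) zero_le_one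
            · exact mul_le_mul_of_nonneg_left h2 (sub_nonneg.mpr hll')
        _ ≤ 2 * ε := by linarith
    refine ⟨fun x => l' * h' x + (c0 + (l - l') * h' x0), ⟨h', hh', c0 + (l - l') * h' x0,
      fun x hx => ⟨rfl, ?_⟩⟩, hclose⟩
    have h1 := hclose 1 E.one_mem r0 hr0
    simp only [Prod.fst_one, Prod.snd_one, tr_one] at h1
    have h2 := (hf _ (hR r0 hr0).1).2
    have h3 := hD h' hh' x hx x0 hx0d
    have h4 : |l' * (h' x - h' x0)| ≤ D := by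
      rw [abs_mul, abs_of_nonneg hl']
      calc l' * |h' x - h' x0| ≤ 1 * D := mul_le_mul (by linarith) h3 (abs_nonneg _) zero_le_one
        _ = D := one_mul D
    have h5 := abs_le.mp h1
    have h6 := abs_le.mp h2
    have h7 := abs_le.mp h4
    rw [abs_le]
    constructor <;> nlinarith [h5.1, h5.2, h6.1, h6.2, h7.1, h7.2]

theorem clamp {b c0 ε : ℝ} (hε : 0 < ε) (h : |c0| ≤ b) :
    ∃ c', |c'| ≤ max (b - 2 * ε) 0 ∧ |c0 - c'| ≤ 2 * ε := by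
  rw [abs_le] at h
  rcases le_or_gt |c0| (2 * ε) with h1 | h1
  · exact ⟨0, by simp, by simpa using h1⟩
  · rcases lt_abs.mp h1 with h2 | h2
    · refine ⟨c0 - 2 * ε, ?_, ?_⟩
      · rw [abs_of_nonneg (by linarith)]
        exact le_max_of_le_left (by linarith)
      · rw [show c0 - (c0 - 2 * ε) = 2 * ε by ring, abs_of_nonneg (by linarith)]
    · refine ⟨c0 + 2 * ε, ?_, ?_⟩
      · rw [abs_of_nonpos (by linarith)]
        exact le_max_of_le_left (by linarith)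
      · rw [show c0 - (c0 + 2 * ε) = -(2 * ε) by ring, abs_neg, abs_of_nonneg (by linarith)]

/-- Second phase. -/
theorem phase2 (c : Cond) {ε b : ℝ} {f : Pt → ℝ} {E : Subgroup (GG × GG)} {R : Set (Pt × Pt)}
    (hE : ∀ e ∈ E, e.1 ∈ c.K ∧ e.2 ∈ c.K)
    (hR : ∀ r ∈ R, r.1 ∈ dom c.K c.M ∧ r.2 ∈ dom c.K c.M) (hε : 0 < ε)
    (hf : f ∈ Cl c 0 b) :
    ∃ f' ∈ Cl c 0 (max (b - 2 * ε) 0), ∀ e ∈ E, ∀ r ∈ R,
      |f (tr e.1 r.1) - f' (tr e.2 r.2)| ≤ 2 * ε := by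
  obtain ⟨h, hh, c0, hf⟩ := hf
  by_cases hb : |c0| ≤ b
  · obtain ⟨c', h1, h2⟩ := clamp hε hb
    refine ⟨fun _ => c', ⟨fun _ => 0, c.zero, c', fun x _ => ⟨by simp, h1⟩⟩, ?_⟩
    intro e he r hr
    have hx : tr e.1 r.1 ∈ dom c.K c.M := tr_mem_dom le_rfl le_rfl (hE e he).1 (hR r hr).1
    rw [(hf _ hx).1]
    simpa using h2
  · have hemp : ∀ x, x ∉ dom c.K c.M := by
      intro x hx
      have h1 := hf x hx
      rw [h1.1] at h1
      simp only [zero_mul, zero_add] at h1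
      exact hb h1.2
    refine ⟨fun _ => 0, ⟨fun _ => 0, c.zero, 0, fun x hx => absurd hx (hemp x)⟩, ?_⟩
    intro e he r hr
    exact absurd (hR r hr).1 (hemp _)

/-- The bounds along the tree. -/
noncomputable def bd (D ε : ℝ) (N : ℕ) : ℕ → ℝ
  | 0 => D
  | n + 1 => if n < N then bd D ε N n + (D + 2 * ε) else max (bd D ε N n - 2 * ε) 0

theorem bd_nonneg {D ε : ℝ} (hD : 0 ≤ D) (hε : 0 < ε) (N n : ℕ) : 0 ≤ bd D ε N n := by
  induction n with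
  | zero => exact hD
  | succ n ih =>
    unfold bd
    split_ifs
    · linarith
    · exact le_max_right _ _

theorem bd_le {D ε : ℝ} (hD : 0 ≤ D) (hε : 0 < ε) (N n : ℕ) :
    bd D ε N n ≤ D + (D + 2 * ε) * n := by
  induction n with
  | zero => simp [bd]
  | succ n ih =>
    have h0 := bd_nonneg hD hε N n
    unfold bd
    push_cast
    split_ifs
    · nlinarith
    · apply max_le
      · nlinarith
      · have : (0 : ℝ) ≤ n := Nat.cast_nonneg n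
        nlinarith [mul_nonneg (by linarith : 0 ≤ D + 2 * ε) this]

theorem bd_end {D ε : ℝ} (hD : 0 ≤ D) (hε : 0 < ε) (N m : ℕ) :
    bd D ε N (N + m) ≤ max (bd D ε N N - 2 * ε * m) 0 := by
  induction m with
  | zero => simp
  | succ m ih =>
    rw [← add_assoc]
    conv_lhs => unfold bd
    rw [if_neg (by omega)]
    apply max_le _ (le_max_right _ _)
    push_cast
    rcases le_total (bd D ε N N - 2 * ε * m) 0 with h | h
    · rw [max_eq_right h] at ih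
      apply le_max_of_le_right
      linarith
    · rw [max_eq_left h] at ih
      apply le_max_of_le_left
      linarith

/-- The slopes along the tree. -/
noncomputable def sl (N : ℕ) (n : ℕ) : ℝ := max (1 - (n : ℝ) / N) 0

theorem exists_chain (c : Cond) {ε D : ℝ} (E : Subgroup (GG × GG)) (R : Set (Pt × Pt))
    (hE : ∀ e ∈ E, e.1 ∈ c.K ∧ e.2 ∈ c.K)
    (hR : ∀ r ∈ R, r.1 ∈ dom c.K c.M ∧ r.2 ∈ dom c.K c.M) (hε : 0 < ε)
    (hD : ∀ f ∈ c.Ls, ∀ x ∈ dom c.K c.M, ∀ y ∈ dom c.K c.M, |f x - f y| ≤ D) (hD0 : 0 ≤ D)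
    (hiso : NearIso c.Ls E R ε) :
    ∃ (L : ℕ) (b : ℝ) (l : ℕ → ℝ) (bb : ℕ → ℝ), (∀ n, 0 ≤ l n) ∧ (∀ n, l n ≤ 1) ∧ l 0 = 1 ∧
      bb 0 = D ∧ (∀ n ≤ L, bb n ≤ b) ∧
      (∀ n < L, ∀ f ∈ Cl c (l n) (bb n), ∃ f' ∈ Cl c (l (n + 1)) (bb (n + 1)),
        ∀ e ∈ E, ∀ r ∈ R, |f (tr e.1 r.1) - f' (tr e.2 r.2)| ≤ 2 * ε) ∧
      (∀ n < L, ∀ f' ∈ Cl c (l n) (bb n), ∃ f ∈ Cl c (l (n + 1)) (bb (n + 1)),
        ∀ e ∈ E, ∀ r ∈ R, |f (tr e.1 r.1) - f' (tr e.2 r.2)| ≤ 2 * ε) ∧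
      (∀ f ∈ Cl c (l L) (bb L), ∀ f' ∈ Cl c (l L) (bb L),
        ∀ e ∈ E, ∀ r ∈ R, |f (tr e.1 r.1) - f' (tr e.2 r.2)| ≤ 2 * ε) := by
  obtain ⟨N0, hN0⟩ := exists_nat_ge (D / ε)
  set N := N0 + 1 with hN
  have hNpos : (0 : ℝ) < N := by rw [hN]; push_cast; positivity
  have hND : D ≤ ε * N := by
    rw [div_le_iff₀ hε] at hN0
    rw [hN]
    push_cast
    nlinarith
  obtain ⟨m, hm⟩ := exists_nat_ge (bd D ε N N / (2 * ε))
  have hm' : bd D ε N N ≤ 2 * ε * m := by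
    rw [div_le_iff₀ (by linarith)] at hm
    linarith
  have hlast : bd D ε N (N + m) = 0 := by
    apply le_antisymm _ (bd_nonneg hD0 hε _ _)
    have := bd_end hD0 hε N m
    rwa [max_eq_right (by linarith)] at this
  have hslL : ∀ n, N ≤ n → sl N n = 0 := by
    intro n hn
    unfold sl
    apply max_eq_right
    have : (1 : ℝ) ≤ n / N := by
      rw [le_div_iff₀ hNpos, one_mul]
      exact_mod_cast hn
    linarith
  have hsl0 : ∀ n, 0 ≤ sl N n := fun n => le_max_right _ _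
  have hsl1 : ∀ n, sl N n ≤ 1 := fun n => max_le (by
    have : (0 : ℝ) ≤ n / N := by positivity
    linarith) zero_le_one
  have hslmono : ∀ n, sl N (n + 1) ≤ sl N n := by
    intro n
    unfold sl
    apply max_le_max _ le_rfl
    have : (n : ℝ) / N ≤ ((n + 1 : ℕ) : ℝ) / N := by
      apply div_le_div_of_nonneg_right _ hNpos.le
      push_cast; linarith
    linarith
  have hdiff : ∀ n, (sl N n - sl N (n + 1)) * D ≤ ε := by
    intro n
    have h1 : sl N n - sl N (n + 1) ≤ 1 / N := by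
      unfold sl
      have h2 : max (1 - (n : ℝ) / N) 0 ≤ max (1 - ((n + 1 : ℕ) : ℝ) / N) 0 + 1 / N := by
        apply max_le
        · have : 1 - (n : ℝ) / N = 1 - ((n + 1 : ℕ) : ℝ) / N + 1 / N := by
            push_cast; ring
          rw [this]
          linarith [le_max_left (1 - ((n + 1 : ℕ) : ℝ) / N) 0]
        · have : (0 : ℝ) ≤ 1 / N := by positivity
          linarith [le_max_right (1 - ((n + 1 : ℕ) : ℝ) / N) 0]
      linarith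
    calc (sl N n - sl N (n + 1)) * D ≤ 1 / N * D := mul_le_mul_of_nonneg_right h1 hD0
      _ = D / N := by ring
      _ ≤ ε := by rw [div_le_iff₀ hNpos]; exact hND
  have hstep : ∀ (E' : Subgroup (GG × GG)) (R' : Set (Pt × Pt)),
      (∀ e ∈ E', e.1 ∈ c.K ∧ e.2 ∈ c.K) →
      (∀ r ∈ R', r.1 ∈ dom c.K c.M ∧ r.2 ∈ dom c.K c.M) →
      (∀ f ∈ c.Ls, ∃ f' ∈ c.Ls, ∀ e ∈ E', ∀ r ∈ R', |f (tr e.1 r.1) - f' (tr e.2 r.2)| ≤ ε) →
      ∀ n, ∀ f ∈ Cl c (sl N n) (bd D ε N n), ∃ f' ∈ Cl c (sl N (n + 1)) (bd D ε N (n + 1)),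
        ∀ e ∈ E', ∀ r ∈ R', |f (tr e.1 r.1) - f' (tr e.2 r.2)| ≤ 2 * ε := by
    intro E' R' hE' hR' hiso' n f hf
    by_cases hn : n < N
    · have hb : bd D ε N (n + 1) = bd D ε N n + (D + 2 * ε) := by
        conv_lhs => unfold bd
        rw [if_pos hn]
      rw [hb]
      exact phase1 c hE' hR' hε hD hD0 hiso' (bd_nonneg hD0 hε _ _) (hsl0 _) (hslmono n) (hsl1 _)
        (hdiff n) hf
    · have hb : bd D ε N (n + 1) = max (bd D ε N n - 2 * ε) 0 := by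
        conv_lhs => unfold bd
        rw [if_neg hn]
      rw [hb, hslL (n + 1) (by omega)]
      rw [hslL n (by omega)] at hf
      exact phase2 c hE' hR' hε hf
  refine ⟨N + m, D + (D + 2 * ε) * (N + m : ℕ), sl N, bd D ε N, hsl0, hsl1, ?_, rfl, ?_, ?_, ?_, ?_⟩
  · unfold sl
    simp
  · intro n hn
    refine (bd_le hD0 hε N n).trans ?_
    have : (n : ℝ) ≤ (N + m : ℕ) := by exact_mod_cast hn
    have h2 : 0 ≤ D + 2 * ε := by linarith
    nlinarith [mul_le_mul_of_nonneg_left this h2]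
  · intro n _
    exact hstep E R hE hR hiso.1 n
  · intro n _ f' hf'
    let E' : Subgroup (GG × GG) := E.comap (MulEquiv.prodComm : GG × GG ≃* GG × GG).toMonoidHom
    let R' : Set (Pt × Pt) := {r | r.swap ∈ R}
    have hE'm : ∀ e : GG × GG, e ∈ E' ↔ e.swap ∈ E := fun e => Iff.rfl
    obtain ⟨f, hf, hff⟩ := hstep E' R' (fun e he => (hE _ he).symm) (fun r hr => (hR _ hr).symm)
      (fun f hf => by
        obtain ⟨f', hf', h⟩ := hiso.2 f hf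
        refine ⟨f', hf', fun e he r hr => ?_⟩
        rw [abs_sub_comm]
        exact h e.swap he r.swap hr) n f' hf'
    refine ⟨f, hf, fun e he r hr => ?_⟩
    rw [abs_sub_comm]
    exact hff e.swap (by rw [hE'm, Prod.swap_swap]; exact he) r.swap (by
      change r.swap.swap ∈ R
      rw [Prod.swap_swap]; exact hr)
  · intro f hf f' hf' e he r hr
    rw [hlast] at hf hf'
    obtain ⟨_, _, _, h1⟩ := hf
    obtain ⟨_, _, _, h2⟩ := hf'
    have hx := (h1 _ (tr_mem_dom le_rfl le_rfl (hE e he).1 (hR r hr).1)).2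
    have hy := (h2 _ (tr_mem_dom le_rfl le_rfl (hE e he).2 (hR r hr).2)).2
    have hx' := abs_nonpos_iff.mp hx
    have hy' := abs_nonpos_iff.mp hy
    rw [hx', hy']
    simp
    linarith

end step

end UnivAct
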