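import Mathlib
import Pool.Agent.Lib.MP_a2e83c_al.Cond

/-!
# The two kinds of extensions of a stage
-/

namespace UnivAct

open Classical

theorem hnn_step (c : Cond) {ε : ℝ} (hε : 0 < ε) (E : Subgroup (GG × GG)) (R : Set (Pt × Pt))
    (hE : ∀ e ∈ E, e.1 ∈ c.K ∧ e.2 ∈ c.K)
    (hE1 : ∀ e ∈ E, e.1 = 1 → e.2 = 1) (hE2 : ∀ e ∈ E, e.2 = 1 → e.1 = 1)
    (hR : ∀ r ∈ R, r.1 ∈ dom c.K c.M ∧ r.2 ∈ dom c.K c.M)
    (hiso : NearIso c.Ls E R ε) :
    ∃ c' : Cond, c.Le c' ∧ NearConj c'.K c'.Ls E R ε := by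
  obtain ⟨D, hD0, hD⟩ := c.osc
  obtain ⟨L, b, l, bb, hl0, hl1, hl00, hbb0, hbb, hs1, hs2, hfin⟩ :=
    exists_chain c E R hE hR hε hD hD0 hiso
  have := c.fin
  let E' : Subgroup (c.K × c.K) := E.comap (c.K.subtype.prodMap c.K.subtype)
  have hE'm : ∀ e : c.K × c.K, e ∈ E' ↔ ((e.1 : GG), (e.2 : GG)) ∈ E := fun e => Iff.rfl
  obtain ⟨Ω, hΩ, j, T, ω0, hj, hT, hΦ⟩ := near_hnn (K := c.K) E'
    (fun e he h => Subtype.ext (hE1 _ he (congrArg Subtype.val h)))
    (fun e he h => Subtype.ext (hE2 _ he (congrArg Subtype.val h))) L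
  obtain ⟨i, hi, hifree, hij⟩ := exists_free_embedding c.K c.free j hj
  have hQfin : Finite (Equiv.Perm Ω) := inferInstance
  have hle : c.K ≤ i.range := by
    intro k hk
    exact ⟨j ⟨k, hk⟩, hij ⟨k, hk⟩⟩
  let t : GG := i T
  have ht : t ∈ i.range := ⟨T, rfl⟩
  have hte : ∀ e ∈ E, t * e.1 = e.2 * t := by
    intro e he
    have h1 := hij ⟨e.1, (hE e he).1⟩
    have h2 := hij ⟨e.2, (hE e he).2⟩
    have h3 := hT (⟨e.1, (hE e he).1⟩, ⟨e.2, (hE e he).2⟩) he
    have h4 := congrArg i h3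
    rw [map_mul, map_mul, h1, h2] at h4
    exact h4
  -- the new class of functionals
  let Ls' : Set (Pt → ℝ) := {f | (∀ x ∈ dom i.range c.M, ∀ y ∈ dom i.range c.M,
      |f x - f y| ≤ 2 * b) ∧ ∀ g ∈ i.range, (fun x => f (tr g x)) ∈ c.Ls ∧
      ∀ r ∈ R, |f (tr g (tr t r.1)) - f (tr g r.2)| ≤ 2 * ε}
  have hb0 : 0 ≤ b := hD0.trans (hbb0 ▸ hbb 0 (Nat.zero_le _))
  let c' : Cond :=
    { K := i.range
      M := c.M
      Ls := Ls'
      fin := (Set.finite_range i).to_subtype
      free := hifree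
      loc := by
        rintro f f' hff ⟨h1, h2⟩
        refine ⟨fun x hx y hy => by rw [← hff x hx, ← hff y hy]; exact h1 x hx y hy, ?_⟩
        intro g hg
        refine ⟨?_, ?_⟩
        · apply c.loc _ _ _ (h2 g hg).1
          intro x hx
          exact hff _ (tr_mem_dom hle le_rfl hg hx)
        · intro r hr
          have e1 := hff (tr g (tr t r.1)) (by
            rw [← tr_mul]
            exact tr_mem_dom hle le_rfl (i.range.mul_mem hg ht) (hR r hr).1)
          have e2 := hff (tr g r.2) (tr_mem_dom hle le_rfl hg (hR r hr).2)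
          rw [← e1, ← e2]
          exact (h2 g hg).2 r hr
      inv := by
        rintro g hg f ⟨h1, h2⟩
        refine ⟨fun x hx y hy => h1 _ (tr_mem_dom le_rfl le_rfl hg hx) _
          (tr_mem_dom le_rfl le_rfl hg hy), ?_⟩
        intro g' hg'
        have h3 := h2 (g * g') (i.range.mul_mem hg hg')
        simp only [tr_mul] at h3
        exact h3
      star := by
        rintro f ⟨h1, h2⟩ a c0 ha0 ha1
        have hkey : ∀ x y B, |f x - f y| ≤ B → |a * f x + c0 - (a * f y + c0)| ≤ B := by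
          intro x y B h
          rw [show a * f x + c0 - (a * f y + c0) = a * (f x - f y) by ring, abs_mul,
            abs_of_nonneg ha0]
          calc a * |f x - f y| ≤ 1 * |f x - f y| := mul_le_mul_of_nonneg_right ha1 (abs_nonneg _)
            _ ≤ B := by rw [one_mul]; exact h
        refine ⟨fun x hx y hy => hkey x y _ (h1 x hx y hy), ?_⟩
        intro g hg
        refine ⟨c.star _ (h2 g hg).1 a c0 ha0 ha1, fun r hr => hkey _ _ _ ((h2 g hg).2 r hr)⟩
      zero := by
        refine ⟨fun x _ y _ => by simpa using hb0, ?_⟩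
        intro g _
        exact ⟨c.zero, fun r _ => by simpa using hε.le⟩
      osc := ⟨2 * b, by linarith, fun f hf x hx y hy => hf.1 x hx y hy⟩ }
  refine ⟨c', ⟨hle, le_rfl, ?_, ?_⟩, t, ht, hte, ?_⟩
  · rintro f ⟨_, h2⟩
    have := (h2 1 i.range.one_mem).1
    simpa only [tr_one] using this
  · -- the extension of functionals
    intro f hf
    obtain ⟨κ, hκ⟩ : ∃ κ : ℝ, ∀ x ∈ dom c.K c.M, |f x - κ| ≤ D := by
      rcases (dom c.K c.M).eq_empty_or_nonempty with h | ⟨x0, hx0⟩
      · exact ⟨0, fun x hx => by rw [h] at hx; exact absurd hx (Set.notMem_empty x)⟩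
      · exact ⟨f x0, fun x hx => hD f hf x hx x0 hx0⟩
    let f1 : Pt → ℝ := fun x => 1 * f x + (-κ)
    have hf1 : f1 ∈ c.Ls := c.star f hf 1 (-κ) zero_le_one le_rfl
    have hf1C : f1 ∈ Cl c (l 0) (bb 0) := by
      refine ⟨f1, hf1, 0, fun x hx => ⟨by rw [hl00]; ring, ?_⟩⟩
      rw [hbb0]
      have := hκ x hx
      simp only [f1, one_mul]
      rw [← sub_eq_add_neg]
      exact this
    obtain ⟨Φ, hΦ0, hΦeq, hΦC, hΦr⟩ := hΦ (Pt → ℝ) (fun k f x => f (tr (k : GG)⁻¹ x))
      (fun f => by funext x; simp)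
      (fun a b f => by
        funext x
        simp only [Subgroup.coe_mul, mul_inv_rev, tr_mul])
      (fun n => Cl c (l n) (bb n))
      (fun n k f hf => Cl_act c k hf)
      (fun f f' => ∀ e ∈ E, ∀ r ∈ R, |f (tr e.1 r.1) - f' (tr e.2 r.2)| ≤ 2 * ε)
      (fun e0 he0 f f' hff e he r hr => by
        have h1 := E.mul_mem (E.inv_mem he0) he
        have h2 := hff _ h1 r hr
        simp only [← tr_mul]
        exact h2)
      hs1 hs2 hfin f1 hf1C
    -- the extended functional
    let f' : Pt → ℝ := fun x => if h : ∃ q, i q = x.1 then Φ ((h.choose)⁻¹ ω0) (1, x.2) + κ else 0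
    have hf' : ∀ q n, f' (i q, n) = Φ (q⁻¹ ω0) (1, n) + κ := by
      intro q n
      have hex : ∃ q', i q' = ((i q, n) : Pt).1 := ⟨q, rfl⟩
      have h1 : hex.choose = q := hi hex.choose_spec
      simp only [f']
      rw [dif_pos hex, h1]
    have hkey : ∀ q, ∀ x ∈ dom c.K c.M, f' (tr (i q) x) = Φ (q⁻¹ ω0) x + κ := by
      rintro q ⟨k, n⟩ ⟨hk, hn⟩
      have h1 : tr (i q) (k, n) = (i (q * j ⟨k, hk⟩), n) := by
        rw [map_mul, hij]; rfl
      rw [h1, hf', mul_inv_rev, ← map_inv, Equiv.Perm.mul_apply, hΦeq]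
      simp [tr]
    have hΦmem : ∀ ω, Φ ω ∈ c.Ls := by
      intro ω
      obtain ⟨n, _, h⟩ := hΦC ω
      exact Cl_sub c (hl0 n) (hl1 n) h
    have hΦb : ∀ ω, ∀ x ∈ dom c.K c.M, |Φ ω x| ≤ b := by
      intro ω x hx
      obtain ⟨n, hn, _, _, _, h⟩ := hΦC ω
      exact (h x hx).2.trans (hbb n hn)
    refine ⟨f', ⟨?_, ?_⟩, ?_⟩
    · have hval : ∀ x ∈ dom i.range c.M, |f' x - κ| ≤ b := by
        rintro ⟨_, n⟩ ⟨⟨q, rfl⟩, hn⟩
        rw [hf']
        simp only [add_sub_cancel_right]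
        exact hΦb _ _ ⟨c.K.one_mem, hn⟩
      intro x hx y hy
      have h1 := abs_le.mp (hval x hx)
      have h2 := abs_le.mp (hval y hy)
      rw [abs_le]
      constructor <;> linarith [h1.1, h1.2, h2.1, h2.2]
    · rintro _ ⟨q, rfl⟩
      refine ⟨?_, ?_⟩
      · have h1 := c.star _ (hΦmem (q⁻¹ ω0)) 1 κ zero_le_one le_rfl
        apply c.loc _ _ _ h1
        intro x hx
        rw [hkey q x hx, one_mul]
      · intro r hr
        have h1 : tr (i q) (tr t r.1) = tr (i (q * T)) r.1 := by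
          rw [map_mul, tr_mul]
        rw [h1, hkey _ _ (hR r hr).1, hkey _ _ (hR r hr).2]
        have h2 := hΦr ((q * T)⁻¹ ω0) 1 E.one_mem r hr
        have h3 : T ((q * T)⁻¹ ω0) = q⁻¹ ω0 := by
          rw [mul_inv_rev, Equiv.Perm.mul_apply, Equiv.Perm.inv_def T, Equiv.apply_symm_apply]
        rw [h3] at h2
        simp only [Prod.fst_one, Prod.snd_one, tr_one] at h2
        rw [add_sub_add_right_eq_sub]
        exact h2
    · intro x hx
      have h1 := hkey 1 x hx
      rw [map_one, tr_one, inv_one, Equiv.Perm.one_apply, hΦ0] at h1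
      rw [h1]
      simp [f1]
  · rintro f ⟨_, h2⟩ r hr
    have := (h2 1 i.range.one_mem).2 r hr
    simpa only [tr_one] using this

/-- Adjoin a fresh copy of a finite group `H` with `m` symbols and the class `𝓐`. -/
theorem fresh_step (c : Cond) {H : Type} [Group H] [Finite H] (m : ℕ)
    (𝓐 : Set (H × Fin m → ℝ)) (hbd : ∃ b, 0 ≤ b ∧ ∀ a ∈ 𝓐, ∀ x, |a x| ≤ b)
    (hzero : (fun _ => 0) ∈ 𝓐)
    (hinv : ∀ g : H, ∀ a ∈ 𝓐, (fun x : H × Fin m => a (g * x.1, x.2)) ∈ 𝓐) :
    ∃ c' : Cond, c.Le c' ∧ c'.M = c.M + m ∧ ∃ ι : H →* GG, Function.Injective ι ∧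
      (∀ h, ι h ∈ c'.K) ∧
      (∀ f ∈ c'.Ls, ∃ a ∈ 𝓐, ∃ l c0 : ℝ, 0 ≤ l ∧ l ≤ 1 ∧
        ∀ (h : H) (i : Fin m), f (ι h, c.M + i) = l * a (h, i) + c0) ∧
      (∀ a ∈ 𝓐, ∃ f ∈ c'.Ls, ∀ (h : H) (i : Fin m), f (ι h, c.M + i) = a (h, i)) := by
  obtain ⟨D, hD0, hD⟩ := c.osc
  obtain ⟨b, hb0, hb⟩ := hbd
  have := c.fin
  let j : c.K →* c.K × H := MonoidHom.inl c.K H
  have hj : Function.Injective j := fun x y h => congrArg Prod.fst h
  obtain ⟨i, hi, hifree, hij⟩ := exists_free_embedding c.K c.free j hj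
  have hle : c.K ≤ i.range := by
    intro k hk
    exact ⟨j ⟨k, hk⟩, hij ⟨k, hk⟩⟩
  have hinK : ∀ q : c.K × H, i q ∈ c.K → q.2 = 1 := by
    intro q hq
    have h1 : i (j ⟨i q, hq⟩) = i q := hij ⟨i q, hq⟩
    have h2 := hi h1
    rw [← h2]
    rfl
  let ι : H →* GG := i.comp (MonoidHom.inr c.K H)
  have hι : ∀ h, ι h = i (1, h) := fun h => rfl
  have hιinj : Function.Injective ι := by
    intro x y h
    have := hi h
    exact congrArg Prod.snd this
  have hιr : ∀ h, ι h ∈ i.range := fun h => ⟨(1, h), rfl⟩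
  have hιdom : ∀ h (k : Fin m), ((ι h, c.M + (k : ℕ)) : Pt) ∈ dom i.range (c.M + m) :=
    fun h k => ⟨hιr h, by have := k.2; simp⟩
  let Ls' : Set (Pt → ℝ) := {f | (∀ x ∈ dom i.range (c.M + m), ∀ y ∈ dom i.range (c.M + m),
      |f x - f y| ≤ D + 2 * b) ∧ ∀ g ∈ i.range, (fun x => f (tr g x)) ∈ c.Ls ∧
      ∃ a ∈ 𝓐, ∃ l c0 : ℝ, 0 ≤ l ∧ l ≤ 1 ∧
        ∀ (h : H) (k : Fin m), f (tr g (ι h, c.M + k)) = l * a (h, k) + c0}
  let c' : Cond :=
    { K := i.range
      M := c.M + m
      Ls := Ls'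
      fin := (Set.finite_range i).to_subtype
      free := hifree
      loc := by
        rintro f f' hff ⟨h1, h2⟩
        refine ⟨fun x hx y hy => by rw [← hff x hx, ← hff y hy]; exact h1 x hx y hy, ?_⟩
        intro g hg
        refine ⟨?_, ?_⟩
        · apply c.loc _ _ _ (h2 g hg).1
          intro x hx
          exact hff _ (tr_mem_dom hle (Nat.le_add_right _ _) hg hx)
        · obtain ⟨a, ha, l, c0, hl0, hl1, h3⟩ := (h2 g hg).2
          refine ⟨a, ha, l, c0, hl0, hl1, fun h k => ?_⟩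
          rw [← h3 h k]
          exact (hff _ (tr_mem_dom le_rfl le_rfl hg (hιdom h k))).symm
      inv := by
        rintro g hg f ⟨h1, h2⟩
        refine ⟨fun x hx y hy => h1 _ (tr_mem_dom le_rfl le_rfl hg hx) _
          (tr_mem_dom le_rfl le_rfl hg hy), ?_⟩
        intro g' hg'
        have h3 := h2 (g * g') (i.range.mul_mem hg hg')
        simp only [tr_mul] at h3
        exact h3
      star := by
        rintro f ⟨h1, h2⟩ a c0 ha0 ha1
        have hkey : ∀ x y B, |f x - f y| ≤ B → |a * f x + c0 - (a * f y + c0)| ≤ B := by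
          intro x y B h
          rw [show a * f x + c0 - (a * f y + c0) = a * (f x - f y) by ring, abs_mul,
            abs_of_nonneg ha0]
          calc a * |f x - f y| ≤ 1 * |f x - f y| := mul_le_mul_of_nonneg_right ha1 (abs_nonneg _)
            _ ≤ B := by rw [one_mul]; exact h
        refine ⟨fun x hx y hy => hkey x y _ (h1 x hx y hy), ?_⟩
        intro g hg
        refine ⟨c.star _ (h2 g hg).1 a c0 ha0 ha1, ?_⟩
        obtain ⟨a', ha', l, c1, hl0, hl1, h3⟩ := (h2 g hg).2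
        refine ⟨a', ha', a * l, a * c1 + c0, mul_nonneg ha0 hl0, mul_le_one₀ ha1 hl0 hl1, ?_⟩
        intro h k
        simp only [h3]
        ring
      zero := by
        refine ⟨fun x _ y _ => by simp; linarith, ?_⟩
        intro g _
        exact ⟨c.zero, _, hzero, 0, 0, le_rfl, zero_le_one, fun h k => by simp⟩
      osc := ⟨D + 2 * b, by linarith, fun f hf x hx y hy => hf.1 x hx y hy⟩ }
  refine ⟨c', ⟨hle, Nat.le_add_right _ _, ?_, ?_⟩, rfl, ι, hιinj, hιr, ?_, ?_⟩
  · rintro f ⟨_, h2⟩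
    have := (h2 1 i.range.one_mem).1
    simpa only [tr_one] using this
  · -- extension of old functionals
    intro f hf
    obtain ⟨κ, hκ⟩ : ∃ κ : ℝ, ∀ x ∈ dom c.K c.M, |f x - κ| ≤ D ∧
        ∀ x ∈ dom c.K c.M, ∀ y ∈ dom c.K c.M, |f x - f y| ≤ D := by
      rcases (dom c.K c.M).eq_empty_or_nonempty with h | ⟨x0, hx0⟩
      · exact ⟨0, fun x hx => by rw [h] at hx; exact absurd hx (Set.notMem_empty x)⟩
      · exact ⟨f x0, fun x hx => ⟨hD f hf x hx x0 hx0, fun x hx y hy => hD f hf x hx y hy⟩⟩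
    let f' : Pt → ℝ := fun x => if x ∈ dom c.K c.M then f x else κ
    have h1 : ∀ x ∈ dom c.K c.M, f' x = f x := fun x hx => if_pos hx
    have h2 : ∀ x, x ∉ dom c.K c.M → f' x = κ := fun x hx => if_neg hx
    refine ⟨f', ⟨?_, ?_⟩, h1⟩
    · intro x _ y _
      by_cases hx : x ∈ dom c.K c.M <;> by_cases hy : y ∈ dom c.K c.M
      · rw [h1 x hx, h1 y hy]
        have := (hκ x hx).2 x hx y hy
        linarith
      · rw [h1 x hx, h2 y hy]
        have := (hκ x hx).1
        linarith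
      · rw [h2 x hx, h1 y hy, abs_sub_comm]
        have := (hκ y hy).1
        linarith
      · rw [h2 x hx, h2 y hy]
        simp
        linarith
    · intro g hg
      refine ⟨?_, ?_⟩
      · by_cases hgK : g ∈ c.K
        · apply c.loc _ _ _ (c.inv g hgK f hf)
          intro x hx
          exact (h1 _ (tr_mem_dom le_rfl le_rfl hgK hx)).symm
        · have h3 := c.star _ c.zero 0 κ le_rfl zero_le_one
          apply c.loc _ _ _ h3
          intro x hx
          rw [h2]
          · simp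
          · intro h
            apply hgK
            have h4 : g * x.1 ∈ c.K := h.1
            have h5 := c.K.mul_mem h4 (c.K.inv_mem hx.1)
            simpa using h5
      · refine ⟨_, hzero, 0, κ, le_rfl, zero_le_one, fun h k => ?_⟩
        rw [h2]
        · simp
        · intro h
          have h3 : c.M + (k : ℕ) < c.M := h.2
          omega
  · rintro f ⟨_, h2⟩
    have := (h2 1 i.range.one_mem).2
    simpa only [tr_one] using this
  · intro a ha
    let f' : Pt → ℝ := fun x => if h : ∃ p : H × Fin m, x = (ι p.1, c.M + p.2) then a h.choose else 0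
    have h1 : ∀ h (k : Fin m), f' (ι h, c.M + k) = a (h, k) := by
      intro h k
      have hex : ∃ p : H × Fin m, ((ι h, c.M + (k : ℕ)) : Pt) = (ι p.1, c.M + p.2) := ⟨(h, k), rfl⟩
      have h2 : hex.choose = (h, k) := by
        have h3 := hex.choose_spec
        rw [Prod.mk.injEq] at h3
        apply Prod.ext
        · exact (hιinj h3.1).symm
        · apply Fin.ext
          have := h3.2
          simp only at this ⊢
          omega
      simp only [f']
      rw [dif_pos hex, h2]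
    have h2 : ∀ x, (¬ ∃ p : H × Fin m, x = (ι p.1, c.M + p.2)) → f' x = 0 := fun x hx => dif_neg hx
    have h3 : ∀ x, |f' x| ≤ b := by
      intro x
      by_cases hx : ∃ p : H × Fin m, x = (ι p.1, c.M + p.2)
      · obtain ⟨p, rfl⟩ := hx
        rw [h1]
        exact hb a ha _
      · rw [h2 x hx]
        simpa using hb0
    refine ⟨f', ⟨?_, ?_⟩, h1⟩
    · intro x _ y _
      have h4 := abs_le.mp (h3 x)
      have h5 := abs_le.mp (h3 y)
      rw [abs_le]
      constructor <;> linarith [h4.1, h4.2, h5.1, h5.2]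
    · rintro _ ⟨⟨k, h0⟩, rfl⟩
      refine ⟨?_, ?_⟩
      · apply c.loc _ _ _ c.zero
        intro x hx
        rw [h2]
        rintro ⟨p, hp⟩
        have h4 : x.2 = c.M + p.2 := congrArg Prod.snd hp
        have h5 := hx.2
        omega
      · by_cases hk : k = 1
        · subst hk
          refine ⟨_, hinv h0 a ha, 1, 0, zero_le_one, le_rfl, fun h k => ?_⟩
          have h4 : tr (i (1, h0)) (ι h, c.M + k) = (ι (h0 * h), c.M + k) := by
            rw [map_mul]; rfl
          rw [h4, h1]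
          ring
        · refine ⟨_, hzero, 0, 0, le_rfl, zero_le_one, fun h k' => ?_⟩
          rw [h2]
          · simp
          · rintro ⟨p, hp⟩
            have h4 : i (k, h0) * i (1, h) = i (1, p.1) := congrArg Prod.fst hp
            rw [← map_mul] at h4
            have h5 := congrArg Prod.fst (hi h4)
            simp at h5
            exact hk h5

end UnivAct
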