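import Mathlib
import Pool.Agent.Lib.MP_a2e83c_al.Step

/-!
# The generic chain of stages and its limit
-/

namespace UnivAct

open Classical

/-- Every finitely generated subgroup is finite. -/
def LocFin (G : Type*) [Group G] : Prop := ∀ K : Subgroup G, K.FG → Finite K

theorem NearIso.transfer {c c' : Cond} (h : c.Le c') {E : Subgroup (GG × GG)}
    {R : Set (Pt × Pt)} {ε : ℝ} (hE : ∀ e ∈ E, e.1 ∈ c.K ∧ e.2 ∈ c.K)
    (hR : ∀ r ∈ R, r.1 ∈ dom c.K c.M ∧ r.2 ∈ dom c.K c.M)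
    (hiso : NearIso c.Ls E R ε) : NearIso c'.Ls E R ε := by
  constructor
  · intro f hf
    obtain ⟨f1, hf1, h1⟩ := hiso.1 f (h.sub hf)
    obtain ⟨f2, hf2, h2⟩ := h.ext f1 hf1
    refine ⟨f2, hf2, fun e he r hr => ?_⟩
    rw [h2 _ (tr_mem_dom le_rfl le_rfl (hE e he).2 (hR r hr).2)]
    exact h1 e he r hr
  · intro f hf
    obtain ⟨f1, hf1, h1⟩ := hiso.2 f (h.sub hf)
    obtain ⟨f2, hf2, h2⟩ := h.ext f1 hf1
    refine ⟨f2, hf2, fun e he r hr => ?_⟩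
    rw [h2 _ (tr_mem_dom le_rfl le_rfl (hE e he).1 (hR r hr).1)]
    exact h1 e he r hr

theorem NearConj.mono {K K' : Subgroup GG} {Ls Ls' : Set (Pt → ℝ)} (hK : K ≤ K')
    (hL : Ls' ⊆ Ls) {E : Subgroup (GG × GG)} {R : Set (Pt × Pt)} {ε : ℝ}
    (h : NearConj K Ls E R ε) : NearConj K' Ls' E R ε := by
  obtain ⟨t, ht, h1, h2⟩ := h
  exact ⟨t, hK ht, h1, fun f hf => h2 f (hL hf)⟩

/-- A conjugation task. -/
abbrev Task : Type := Subgroup (GG × GG) × Set (Pt × Pt) × ℕ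

/-- The tasks over a stage. -/
def tasks (c : Cond) (k : ℕ) : Set Task :=
  {T | (∀ e ∈ T.1, e.1 ∈ c.K ∧ e.2 ∈ c.K) ∧
    (∀ r ∈ T.2.1, r.1 ∈ dom c.K c.M ∧ r.2 ∈ dom c.K c.M) ∧ T.2.2 ≤ k}

theorem dom_finite (c : Cond) : (dom c.K c.M).Finite := by
  have := c.fin
  have h1 : ((c.K : Set GG) ×ˢ (Set.Iio c.M)).Finite :=
    Set.Finite.prod (Set.toFinite _) (Set.finite_Iio _)
  exact h1.subset fun x hx => ⟨hx.1, hx.2⟩

theorem tasks_finite (c : Cond) (k : ℕ) : (tasks c k).Finite := by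
  have := c.fin
  have h1 : {E : Subgroup (GG × GG) | (E : Set (GG × GG)) ⊆ (c.K : Set GG) ×ˢ (c.K : Set GG)}.Finite := by
    have h2 : {S : Set (GG × GG) | S ⊆ (c.K : Set GG) ×ˢ (c.K : Set GG)}.Finite :=
      Set.Finite.finite_subsets (Set.Finite.prod (Set.toFinite _) (Set.toFinite _))
    exact h2.preimage SetLike.coe_injective.injOn
  have h3 : {R : Set (Pt × Pt) | R ⊆ dom c.K c.M ×ˢ dom c.K c.M}.Finite :=
    Set.Finite.finite_subsets ((dom_finite c).prod (dom_finite c))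
  have h4 := h1.prod (h3.prod (Set.finite_Iic k))
  apply h4.subset
  rintro ⟨E, R, j⟩ ⟨a, b, d⟩
  exact ⟨fun e he => a e he, fun r hr => b r hr, d⟩

/-- The subgroup is the graph of an isomorphism. -/
def IsGraph (E : Subgroup (GG × GG)) : Prop :=
  (∀ e ∈ E, e.1 = 1 → e.2 = 1) ∧ (∀ e ∈ E, e.2 = 1 → e.1 = 1)

/-- The tolerance. -/
noncomputable def tol (j : ℕ) : ℝ := (1 / 2) ^ j

theorem tol_pos (j : ℕ) : 0 < tol j := by unfold tol; positivity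

theorem hnn_all (c : Cond) (k : ℕ) :
    ∃ c' : Cond, c.Le c' ∧ ∀ T ∈ tasks c k, IsGraph T.1 → NearIso c.Ls T.1 T.2.1 (tol T.2.2) →
      NearConj c'.K c'.Ls T.1 T.2.1 (tol T.2.2) := by
  have key : ∀ S : Set Task, S.Finite → S ⊆ tasks c k → ∃ c' : Cond, c.Le c' ∧
      ∀ T ∈ S, IsGraph T.1 → NearIso c.Ls T.1 T.2.1 (tol T.2.2) →
      NearConj c'.K c'.Ls T.1 T.2.1 (tol T.2.2) := by
    intro S hS
    induction S, hS using Set.Finite.induction_on with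
    | empty => exact fun _ => ⟨c, Cond.Le.refl c, fun T hT => absurd hT (Set.notMem_empty T)⟩
    | @insert T S _ _ ih =>
      intro hsub
      obtain ⟨c1, hc1, h1⟩ := ih (fun T' hT' => hsub (Set.mem_insert_of_mem _ hT'))
      have hT := hsub (Set.mem_insert T S)
      by_cases hg : IsGraph T.1 ∧ NearIso c.Ls T.1 T.2.1 (tol T.2.2)
      · obtain ⟨c2, hc2, h2⟩ := hnn_step c1 (tol_pos T.2.2) T.1 T.2.1
          (fun e he => ⟨hc1.K (hT.1 e he).1, hc1.K (hT.1 e he).2⟩) hg.1.1 hg.1.2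
          (fun r hr => ⟨⟨hc1.K (hT.2.1 r hr).1.1, lt_of_lt_of_le (hT.2.1 r hr).1.2 hc1.M⟩,
            ⟨hc1.K (hT.2.1 r hr).2.1, lt_of_lt_of_le (hT.2.1 r hr).2.2 hc1.M⟩⟩)
          (hg.2.transfer hc1 hT.1 hT.2.1)
        refine ⟨c2, hc1.trans hc2, ?_⟩
        intro T' hT' hg' hi'
        rcases Set.mem_insert_iff.mp hT' with rfl | hT''
        · exact h2
        · exact (h1 T' hT'' hg' hi').mono hc2.K hc2.sub
      · refine ⟨c1, hc1, ?_⟩
        intro T' hT' hg' hi'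
        rcases Set.mem_insert_iff.mp hT' with rfl | hT''
        · exact absurd ⟨hg', hi'⟩ hg
        · exact h1 T' hT'' hg' hi'
  exact key _ (tasks_finite c k) subset_rfl

/-- Data for a fresh copy. -/
abbrev FTask : Type :=
  Σ (n : ℕ) (m : ℕ) (H : Subgroup (Equiv.Perm (Fin n))), Finset (H × Fin (m + 1) → ℚ)

instance : Nonempty FTask := ⟨⟨0, 0, ⊥, ∅⟩⟩

instance : Countable FTask := inferInstance

/-- A class of rational functions as real functions. -/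
def castCl {H : Type} {m : ℕ} (𝓐 : Finset (H × Fin m → ℚ)) : Set (H × Fin m → ℝ) :=
  {a | ∃ a' ∈ 𝓐, a = fun x => ((a' x : ℚ) : ℝ)}

/-- Validity of the data. -/
def Valid (F : FTask) : Prop :=
  (fun _ => (0 : ℝ)) ∈ castCl F.2.2.2 ∧
  ∀ g : F.2.2.1, ∀ a ∈ castCl F.2.2.2,
    (fun x : F.2.2.1 × Fin (F.2.1 + 1) => a (g * x.1, x.2)) ∈ castCl F.2.2.2

/-- The fresh copy is present. -/
def HasFresh (K : Subgroup GG) (Ls : Set (Pt → ℝ)) (M : ℕ) (F : FTask) : Prop :=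
  ∃ (N : ℕ) (ι : F.2.2.1 →* GG), N + (F.2.1 + 1) ≤ M ∧ Function.Injective ι ∧ (∀ h, ι h ∈ K) ∧
    (∀ f ∈ Ls, ∃ a ∈ castCl F.2.2.2, ∃ l c0 : ℝ, 0 ≤ l ∧ l ≤ 1 ∧
        ∀ (h : F.2.2.1) (i : Fin (F.2.1 + 1)), f (ι h, N + i) = l * a (h, i) + c0) ∧
    (∀ a ∈ castCl F.2.2.2, ∃ f ∈ Ls, ∀ (h : F.2.2.1) (i : Fin (F.2.1 + 1)),
        f (ι h, N + i) = a (h, i))

theorem castCl_bdd {H : Type} [Finite H] {m : ℕ} (𝓐 : Finset (H × Fin m → ℚ)) :
    ∃ b : ℝ, 0 ≤ b ∧ ∀ a ∈ castCl 𝓐, ∀ x, |a x| ≤ b := by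
  have hfin : (Set.range (fun p : 𝓐 × (H × Fin m) => |(((p.1 : H × Fin m → ℚ) p.2 : ℚ) : ℝ)|)).Finite :=
    Set.finite_range _
  obtain ⟨b, hb⟩ := hfin.bddAbove
  refine ⟨max b 0, le_max_right _ _, ?_⟩
  rintro _ ⟨a, ha, rfl⟩ x
  apply le_max_of_le_left
  exact hb ⟨(⟨a, ha⟩, x), rfl⟩

theorem one_step (c : Cond) (k : ℕ) (F : FTask) :
    ∃ c' : Cond, c.Le c' ∧ c.M + 1 ≤ c'.M ∧
      (∀ T ∈ tasks c k, IsGraph T.1 → NearIso c.Ls T.1 T.2.1 (tol T.2.2) →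
        NearConj c'.K c'.Ls T.1 T.2.1 (tol T.2.2)) ∧
      (Valid F → HasFresh c'.K c'.Ls c'.M F) := by
  obtain ⟨c1, hc1, h1⟩ := hnn_all c k
  by_cases hF : Valid F
  · obtain ⟨c2, hc2, hM, ι, hι, hιK, hF1, hF2⟩ := fresh_step c1 (F.2.1 + 1) (castCl F.2.2.2)
      (castCl_bdd _) hF.1 hF.2
    refine ⟨c2, hc1.trans hc2, ?_, ?_, ?_⟩
    · rw [hM]
      have := hc1.M
      omega
    · intro T hT hg hi
      exact (h1 T hT hg hi).mono hc2.K hc2.sub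
    · intro _
      exact ⟨c1.M, ι, hM.ge, hι, hιK, hF1, hF2⟩
  · obtain ⟨c2, hc2, hM, -⟩ := fresh_step (H := Unit) c1 1 {fun _ => 0}
      ⟨0, le_rfl, by rintro _ rfl x; simp⟩ rfl (by rintro g _ rfl; rfl)
    refine ⟨c2, hc1.trans hc2, ?_, ?_, ?_⟩
    · rw [hM]
      have := hc1.M
      omega
    · intro T hT hg hi
      exact (h1 T hT hg hi).mono hc2.K hc2.sub
    · intro h
      exact absurd h hF

/-- The starting stage. -/
def baseCond : Cond where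
  K := ⊥
  M := 0
  Ls := Set.univ
  fin := inferInstance
  free := by
    intro g hg n _
    exact hg
  loc := fun _ _ _ _ => trivial
  inv := fun _ _ _ _ => trivial
  star := fun _ _ _ _ _ _ => trivial
  zero := trivial
  osc := ⟨0, le_rfl, fun f _ x hx => absurd hx.2 (Nat.not_lt_zero _)⟩

theorem exists_chain_conds : ∃ c : ℕ → Cond, (∀ k, (c k).Le (c (k + 1))) ∧
    (∀ k, (c k).M + 1 ≤ (c (k + 1)).M) ∧
    (∀ k, ∀ T ∈ tasks (c k) k, IsGraph T.1 → NearIso (c k).Ls T.1 T.2.1 (tol T.2.2) →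
      NearConj (c (k + 1)).K (c (k + 1)).Ls T.1 T.2.1 (tol T.2.2)) ∧
    (∀ F, Valid F → ∃ k, HasFresh (c k).K (c k).Ls (c k).M F) := by
  obtain ⟨e, he⟩ := exists_surjective_nat FTask
  choose next hn1 hn2 hn3 hn4 using one_step
  let c : ℕ → Cond := fun k => Nat.rec baseCond (fun k c => next c k (e k)) k
  have hc : ∀ k, c (k + 1) = next (c k) k (e k) := fun k => rfl
  refine ⟨c, ?_, ?_, ?_, ?_⟩
  · intro k
    rw [hc]
    exact hn1 _ _ _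
  · intro k
    rw [hc]
    exact hn2 _ _ _
  · intro k
    rw [hc]
    exact hn3 _ _ _
  · intro F hF
    obtain ⟨k, rfl⟩ := he F
    refine ⟨k + 1, ?_⟩
    rw [hc]
    exact hn4 _ _ _ hF

end UnivAct
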