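import Mathlib
import Pool.Agent.Lib.MP_a2e83c_al.Chain

/-!
# The limit of the chain of stages
-/

namespace UnivAct

open Classical

theorem chain_mono {c : ℕ → Cond} (hc : ∀ k, (c k).Le (c (k + 1))) {i j : ℕ} (h : i ≤ j) :
    (c i).Le (c j) := by
  induction j, h using Nat.le_induction with
  | base => exact Cond.Le.refl _
  | succ j _ ih => exact ih.trans (hc j)

/-- Extension of a functional of a stage to the limit. -/
theorem extend_limit {c : ℕ → Cond} (hc : ∀ k, (c k).Le (c (k + 1))) (k : ℕ) {f : Pt → ℝ}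
    (hf : f ∈ (c k).Ls) :
    ∃ F : Pt → ℝ, (∀ i, F ∈ (c i).Ls) ∧ ∀ x ∈ dom (c k).K (c k).M, F x = f x := by
  have hnext : ∀ (j : ℕ) (g : {g : Pt → ℝ // g ∈ (c (k + j)).Ls}),
      ∃ g' : {g : Pt → ℝ // g ∈ (c (k + (j + 1))).Ls},
        ∀ x ∈ dom (c (k + j)).K (c (k + j)).M, g'.1 x = g.1 x := by
    intro j g
    obtain ⟨g', h1, h2⟩ := (hc (k + j)).ext g.1 g.2
    exact ⟨⟨g', h1⟩, h2⟩
  choose next hn using hnext
  let g : ∀ j, {g : Pt → ℝ // g ∈ (c (k + j)).Ls} := fun j => Nat.rec ⟨f, hf⟩ next j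
  have hg : ∀ j, ∀ x ∈ dom (c (k + j)).K (c (k + j)).M, (g (j + 1)).1 x = (g j).1 x :=
    fun j => hn j (g j)
  have hdom : ∀ {i j : ℕ}, i ≤ j → dom (c i).K (c i).M ⊆ dom (c j).K (c j).M := by
    intro i j hij x hx
    have := chain_mono hc hij
    exact ⟨this.K hx.1, lt_of_lt_of_le hx.2 this.M⟩
  have hgg : ∀ j j', j ≤ j' → ∀ x ∈ dom (c (k + j)).K (c (k + j)).M, (g j').1 x = (g j).1 x := by
    intro j j' h
    induction j', h using Nat.le_induction with
    | base => intro x _; rfl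
    | succ j' hjj ih =>
      intro x hx
      rw [hg j' x (hdom (by omega) hx), ih x hx]
  let F : Pt → ℝ := fun x => if h : ∃ j, x ∈ dom (c (k + j)).K (c (k + j)).M then
    (g h.choose).1 x else 0
  have hF : ∀ j, ∀ x ∈ dom (c (k + j)).K (c (k + j)).M, F x = (g j).1 x := by
    intro j x hx
    have hex : ∃ j, x ∈ dom (c (k + j)).K (c (k + j)).M := ⟨j, hx⟩
    simp only [F]
    rw [dif_pos hex]
    rcases le_total hex.choose j with h | h
    · exact (hgg _ _ h x hex.choose_spec).symm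
    · exact hgg _ _ h x hx
  refine ⟨F, ?_, ?_⟩
  · intro i
    rcases le_total i k with h | h
    · have h1 : F ∈ (c (k + 0)).Ls := (c (k + 0)).loc _ _ (fun x hx => (hF 0 x hx).symm) (g 0).2
      exact (chain_mono hc h).sub h1
    · obtain ⟨j, rfl⟩ := Nat.exists_eq_add_of_le h
      exact (c (k + j)).loc _ _ (fun x hx => (hF j x hx).symm) (g j).2
  · intro x hx
    exact hF 0 x hx

theorem exists_limit : ∃ (G : Subgroup GG) (Ls : Set (Pt → ℝ)),
    Countable G ∧ LocFin G ∧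
    (∀ g ∈ G, ∀ f ∈ Ls, (fun x => f (tr g x)) ∈ Ls) ∧
    (∀ f ∈ Ls, ∀ a c0 : ℝ, 0 ≤ a → a ≤ 1 → (fun x => a * f x + c0) ∈ Ls) ∧
    ((fun _ => 0) ∈ Ls) ∧
    (∀ x y : Pt, x.1 ∈ G → y.1 ∈ G → ∃ D, ∀ f ∈ Ls, |f x - f y| ≤ D) ∧
    (∀ (E : Subgroup (GG × GG)) (R : Set (Pt × Pt)) (j : ℕ), (E : Set (GG × GG)).Finite →
      R.Finite → (∀ e ∈ E, e.1 ∈ G ∧ e.2 ∈ G) → IsGraph E → (∀ r ∈ R, r.1.1 ∈ G ∧ r.2.1 ∈ G) →
      NearIso Ls E R (tol j) → NearConj G Ls E R (tol j)) ∧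
    (∀ F, Valid F → ∃ (N : ℕ) (ι : F.2.2.1 →* GG), Function.Injective ι ∧ (∀ h, ι h ∈ G) ∧
      (∀ f ∈ Ls, ∃ a ∈ castCl F.2.2.2, ∃ l c0 : ℝ, 0 ≤ l ∧ l ≤ 1 ∧
        ∀ (h : F.2.2.1) (i : Fin (F.2.1 + 1)), f (ι h, N + i) = l * a (h, i) + c0) ∧
      (∀ a ∈ castCl F.2.2.2, ∃ f ∈ Ls, ∀ (h : F.2.2.1) (i : Fin (F.2.1 + 1)),
        f (ι h, N + i) = a (h, i))) := by
  obtain ⟨c, hc, hM, hT, hF⟩ := exists_chain_conds
  have hmono : Monotone fun k => (c k).K := fun i j h => (chain_mono hc h).K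
  let G : Subgroup GG := ⨆ k, (c k).K
  have hmemG : ∀ g : GG, g ∈ G ↔ ∃ k, g ∈ (c k).K := fun g =>
    Subgroup.mem_iSup_of_directed hmono.directed_le
  have hKG : ∀ k, (c k).K ≤ G := fun k => le_iSup (fun k => (c k).K) k
  have hMk : ∀ k, k ≤ (c k).M := by
    intro k
    induction k with
    | zero => exact Nat.zero_le _
    | succ k ih => have := hM k; omega
  let Ls : Set (Pt → ℝ) := {f | ∀ k, f ∈ (c k).Ls}
  have hLs : ∀ k, Ls ⊆ (c k).Ls := fun k f hf => hf k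
  -- finite sets of points lie in a stage
  have hpt : ∀ x : Pt, x.1 ∈ G → ∃ k, ∀ j, k ≤ j → x ∈ dom (c j).K (c j).M := by
    intro x hx
    obtain ⟨k, hk⟩ := (hmemG _).mp hx
    refine ⟨max k (x.2 + 1), fun j hj => ⟨hmono ((le_max_left _ _).trans hj) hk, ?_⟩⟩
    have h1 := hMk j
    have h2 := (le_max_right k (x.2 + 1)).trans hj
    omega
  have hfinstage : ∀ {α : Type} (S : Set α) (P : ℕ → α → Prop), S.Finite →
      (∀ x ∈ S, ∃ k, ∀ j, k ≤ j → P j x) → ∃ k, ∀ j, k ≤ j → ∀ x ∈ S, P j x := by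
    intro α S P hS
    induction S, hS using Set.Finite.induction_on with
    | empty => exact fun _ => ⟨0, fun j _ x hx => absurd hx (Set.notMem_empty x)⟩
    | @insert a S _ _ ih =>
      intro h
      obtain ⟨k1, h1⟩ := ih (fun x hx => h x (Set.mem_insert_of_mem _ hx))
      obtain ⟨k2, h2⟩ := h a (Set.mem_insert _ _)
      refine ⟨max k1 k2, fun j hj x hx => ?_⟩
      rcases Set.mem_insert_iff.mp hx with rfl | hx
      · exact h2 j ((le_max_right _ _).trans hj)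
      · exact h1 j ((le_max_left _ _).trans hj) x hx
  refine ⟨G, Ls, ?_, ?_, ?_, ?_, ?_, ?_, ?_, ?_⟩
  · -- countable
    have h1 : (G : Set GG) = ⋃ k, ((c k).K : Set GG) := by
      ext g
      rw [Set.mem_iUnion]
      exact hmemG g
    have h2 : (G : Set GG).Countable := by
      rw [h1]
      apply Set.countable_iUnion
      intro k
      have := (c k).fin
      exact (Set.toFinite _).countable
    exact h2.to_subtype
  · -- locally finite
    rintro K ⟨S, rfl⟩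
    obtain ⟨k, hk⟩ := hfinstage (S : Set G) (fun j x => (x : GG) ∈ (c j).K) S.finite_toSet (by
      intro x _
      obtain ⟨k, hk⟩ := (hmemG _).mp x.2
      exact ⟨k, fun j hj => hmono hj hk⟩)
    have h1 : Subgroup.closure (S : Set G) ≤ (c k).K.subgroupOf G := by
      rw [Subgroup.closure_le]
      intro x hx
      exact hk k le_rfl x hx
    have := (c k).fin
    have h2 : Finite ((c k).K.subgroupOf G) := by
      apply Finite.of_injective (fun x : (c k).K.subgroupOf G => (⟨x.1.1, x.2⟩ : (c k).K))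
      intro x y h
      apply Subtype.ext; apply Subtype.ext
      exact congrArg (fun z : (c k).K => (z : GG)) h
    exact Finite.of_injective (Subgroup.inclusion h1) (Subgroup.inclusion_injective h1)
  · -- invariance
    intro g hg f hf k
    obtain ⟨k0, hk0⟩ := (hmemG _).mp hg
    have h1 := (c (max k k0)).inv g (hmono (le_max_right _ _) hk0) f (hf _)
    exact (chain_mono hc (le_max_left k k0)).sub h1
  · intro f hf a c0 h0 h1 k
    exact (c k).star f (hf k) a c0 h0 h1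
  · exact fun k => (c k).zero
  · intro x y hx hy
    obtain ⟨k1, h1⟩ := hpt x hx
    obtain ⟨k2, h2⟩ := hpt y hy
    obtain ⟨D, _, hD⟩ := (c (max k1 k2)).osc
    exact ⟨D, fun f hf => hD f (hf _) x (h1 _ (le_max_left _ _)) y (h2 _ (le_max_right _ _))⟩
  · intro E R j hEfin hRfin hEG hg hRG hiso
    obtain ⟨k1, h1⟩ := hfinstage (E : Set (GG × GG)) (fun j e => e.1 ∈ (c j).K ∧ e.2 ∈ (c j).K) hEfin
      (by
        intro e he
        obtain ⟨a, ha⟩ := (hmemG _).mp (hEG e he).1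
        obtain ⟨b, hb⟩ := (hmemG _).mp (hEG e he).2
        exact ⟨max a b, fun j hj => ⟨hmono ((le_max_left _ _).trans hj) ha,
          hmono ((le_max_right _ _).trans hj) hb⟩⟩)
    obtain ⟨k2, h2⟩ := hfinstage R (fun j r => r.1 ∈ dom (c j).K (c j).M ∧
        r.2 ∈ dom (c j).K (c j).M) hRfin
      (by
        intro r hr
        obtain ⟨a, ha⟩ := hpt _ (hRG r hr).1
        obtain ⟨b, hb⟩ := hpt _ (hRG r hr).2
        exact ⟨max a b, fun j hj => ⟨ha j ((le_max_left _ _).trans hj),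
          hb j ((le_max_right _ _).trans hj)⟩⟩)
    set k := max j (max k1 k2) with hk
    have hE' : ∀ e ∈ E, e.1 ∈ (c k).K ∧ e.2 ∈ (c k).K :=
      h1 k ((le_max_left _ _).trans (le_max_right _ _))
    have hR' : ∀ r ∈ R, r.1 ∈ dom (c k).K (c k).M ∧ r.2 ∈ dom (c k).K (c k).M :=
      h2 k ((le_max_right _ _).trans (le_max_right _ _))
    have hiso' : NearIso (c k).Ls E R (tol j) := by
      constructor
      · intro f hf
        obtain ⟨F, hF1, hF2⟩ := extend_limit hc k hf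
        obtain ⟨f', hf', h3⟩ := hiso.1 F hF1
        refine ⟨f', hf' k, fun e he r hr => ?_⟩
        rw [← hF2 _ (tr_mem_dom le_rfl le_rfl (hE' e he).1 (hR' r hr).1)]
        exact h3 e he r hr
      · intro f hf
        obtain ⟨F, hF1, hF2⟩ := extend_limit hc k hf
        obtain ⟨f', hf', h3⟩ := hiso.2 F hF1
        refine ⟨f', hf' k, fun e he r hr => ?_⟩
        rw [← hF2 _ (tr_mem_dom le_rfl le_rfl (hE' e he).2 (hR' r hr).2)]
        exact h3 e he r hr
    have h4 := hT k (E, R, j) ⟨hE', hR', le_max_left _ _⟩ hg hiso'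
    exact h4.mono (hKG _) (hLs _)
  · intro F hF'
    obtain ⟨k, N, ι, hN, hι, hιK, hF1, hF2⟩ := hF F hF'
    refine ⟨N, ι, hι, fun h => hKG _ (hιK h), fun f hf => hF1 f (hf k), ?_⟩
    intro a ha
    obtain ⟨f, hf, h1⟩ := hF2 a ha
    obtain ⟨f', hf', h2⟩ := extend_limit hc k hf
    refine ⟨f', hf', fun h i => ?_⟩
    rw [h2 _ ⟨hιK h, ?_⟩, h1]
    have := i.2
    simp only
    omega

end UnivAct
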