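import Mathlib
import Pool.Agent.Lib.MP_a2e83c_al.Limit

/-!
# Affine functionals and extension of affine isometries from dense families
-/

namespace UnivAct

/-- Affine functionals of slope at most one. -/
def AffFun (Y : Type*) [NormedAddCommGroup Y] [NormedSpace ℝ Y] : Set (Y → ℝ) :=
  {u | ∃ (l : StrongDual ℝ Y) (c : ℝ), ‖l‖ ≤ 1 ∧ ∀ y, u y = l y + c}

section

variable {Y : Type*} [NormedAddCommGroup Y] [NormedSpace ℝ Y]

theorem AffFun.zero : (fun _ => 0) ∈ AffFun Y := ⟨0, 0, by simp, fun y => by simp⟩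

theorem AffFun.star {u : Y → ℝ} (hu : u ∈ AffFun Y) (a c : ℝ) (h0 : 0 ≤ a) (h1 : a ≤ 1) :
    (fun y => a * u y + c) ∈ AffFun Y := by
  obtain ⟨l, c0, hl, h⟩ := hu
  refine ⟨a • l, a * c0 + c, ?_, fun y => ?_⟩
  · rw [norm_smul, Real.norm_eq_abs, abs_of_nonneg h0]
    exact mul_le_one₀ h1 (norm_nonneg _) hl
  · change a * u y + c = _
    rw [h]
    simp
    ring

theorem AffFun.lip {u : Y → ℝ} (hu : u ∈ AffFun Y) (x y : Y) : |u x - u y| ≤ ‖x - y‖ := by
  obtain ⟨l, c0, hl, h⟩ := hu
  rw [h, h, add_sub_add_right_eq_sub, ← map_sub]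
  calc |l (x - y)| = ‖l (x - y)‖ := (Real.norm_eq_abs _).symm
    _ ≤ ‖l‖ * ‖x - y‖ := l.le_opNorm _
    _ ≤ 1 * ‖x - y‖ := mul_le_mul_of_nonneg_right hl (norm_nonneg _)
    _ = _ := one_mul _

theorem AffFun.comp {u : Y → ℝ} (hu : u ∈ AffFun Y) (e : Y ≃ᵢ Y) : (fun y => u (e y)) ∈ AffFun Y := by
  obtain ⟨l, c0, hl, h⟩ := hu
  let e' := e.toRealAffineIsometryEquiv
  let L : Y →L[ℝ] Y := e'.linearIsometryEquiv.toContinuousLinearEquiv.toContinuousLinearMap
  have he : ∀ y, e y = L y + e 0 := by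
    intro y
    have h1 := e'.map_vadd 0 y
    simp only [vadd_eq_add, add_zero] at h1
    exact h1
  refine ⟨l.comp L, l (e 0) + c0, ?_, fun y => ?_⟩
  · calc ‖l.comp L‖ ≤ ‖l‖ * ‖L‖ := ContinuousLinearMap.opNorm_comp_le _ _
      _ ≤ 1 * 1 := by
        apply mul_le_mul hl _ (norm_nonneg _) zero_le_one
        exact e'.linearIsometryEquiv.toLinearIsometry.norm_toContinuousLinearMap_le
      _ = 1 := one_mul _
  · change u (e y) = _
    rw [h, he, map_add]
    simp
    ring

theorem AffFun.norm_le {u : Y → ℝ} (hu : u ∈ AffFun Y) {α β γ : ℝ} (hs : α + β + γ = 0)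
    (x y z : Y) : |α * u x + β * u y + γ * u z| ≤ ‖α • x + β • y + γ • z‖ := by
  obtain ⟨l, c0, hl, h⟩ := hu
  have h1 : α * u x + β * u y + γ * u z = l (α • x + β • y + γ • z) := by
    rw [h, h, h]
    simp only [map_add, map_smul, smul_eq_mul]
    have : γ = -α - β := by linarith
    rw [this]
    ring
  rw [h1]
  calc |l (α • x + β • y + γ • z)| = ‖l (α • x + β • y + γ • z)‖ := (Real.norm_eq_abs _).symm
    _ ≤ ‖l‖ * ‖α • x + β • y + γ • z‖ := l.le_opNorm _
    _ ≤ 1 * ‖α • x + β • y + γ • z‖ := mul_le_mul_of_nonneg_right hl (norm_nonneg _)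
    _ = _ := one_mul _

theorem AffFun.exists_norm {α β γ : ℝ} (x y z : Y) :
    ∃ u ∈ AffFun Y, |α * u x + β * u y + γ * u z| = ‖α • x + β • y + γ • z‖ := by
  obtain ⟨l, hl, h⟩ := exists_dual_vector'' ℝ (α • x + β • y + γ • z)
  refine ⟨fun y => l y, ⟨l, 0, hl, fun y => by simp⟩, ?_⟩
  have h1 : α * l x + β * l y + γ * l z = l (α • x + β • y + γ • z) := by
    simp only [map_add, map_smul, smul_eq_mul]
  rw [h1, h]
  simp

end

theorem dist_midpoint_eq {V : Type*} [NormedAddCommGroup V] [NormedSpace ℝ V] (p q r : V) :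
    dist p (midpoint ℝ q r) = ‖(1 : ℝ) • p + (-(1 / 2) : ℝ) • q + (-(1 / 2) : ℝ) • r‖ := by
  rw [dist_eq_norm, midpoint_eq_smul_add]
  congr 1
  simp only [smul_add, one_smul, neg_smul, invOf_eq_inv]
  norm_num
  abel

/-- Affine isometries from dense families. -/
theorem exists_affineIsometry {ι : Type*} {Y X : Type*} [NormedAddCommGroup Y] [NormedSpace ℝ Y]
    [NormedAddCommGroup X] [NormedSpace ℝ X] [CompleteSpace X] (y : ι → Y) (x : ι → X)
    (hy : DenseRange y)
    (h : ∀ α β γ : ℝ, α + β + γ = 0 → ∀ a b c : ι,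
      ‖α • x a + β • x b + γ • x c‖ = ‖α • y a + β • y b + γ • y c‖) :
    ∃ φ : Y →ᵃⁱ[ℝ] X, ∀ a, φ (y a) = x a := by
  have hd : ∀ a b, dist (x a) (x b) = dist (y a) (y b) := by
    intro a b
    have := h 1 (-1) 0 (by ring) a b b
    simp only [one_smul, neg_smul, zero_smul, add_zero] at this
    rw [dist_eq_norm, dist_eq_norm, sub_eq_add_neg, sub_eq_add_neg]
    exact this
  let _ : PseudoMetricSpace ι := PseudoMetricSpace.induced y inferInstance
  have hyi : Isometry y := Isometry.of_dist_eq fun a b => rfl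
  have hxi : Isometry x := Isometry.of_dist_eq fun a b => hd a b
  have hdi : IsDenseInducing y := hyi.isUniformInducing.isDenseInducing hy
  let φ : Y → X := hdi.extend x
  have hφc : Continuous φ := by
    have := uniformContinuous_uniformly_extend hyi.isUniformInducing hy hxi.uniformContinuous
    exact this.continuous
  have hφ : ∀ a, φ (y a) = x a := fun a => hdi.extend_eq hxi.continuous a
  have hφd : ∀ p q, dist (φ p) (φ q) = dist p q := by
    intro p q
    refine hy.induction_on₂ (p := fun p q => dist (φ p) (φ q) = dist p q) ?_ ?_ p q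
    · exact isClosed_eq (by fun_prop) (by fun_prop)
    · intro a b
      rw [hφ, hφ, hd]
  have hφi : Isometry φ := Isometry.of_dist_eq hφd
  have hmid : ∀ p q, φ (midpoint ℝ p q) = midpoint ℝ (φ p) (φ q) := by
    intro p q
    refine hy.induction_on₂ (p := fun p q => φ (midpoint ℝ p q) = midpoint ℝ (φ p) (φ q)) ?_ ?_ p q
    · refine isClosed_eq ?_ ?_
      · exact hφc.comp (by
          unfold midpoint
          fun_prop)
      · unfold midpoint
        fun_prop
    · intro a b
      rw [← dist_eq_zero]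
      apply le_antisymm _ dist_nonneg
      apply le_of_forall_pos_le_add
      intro ε hε
      obtain ⟨c, hc⟩ := hy.exists_dist_lt (midpoint ℝ (y a) (y b)) (half_pos hε)
      have h1 : dist (φ (midpoint ℝ (y a) (y b))) (x c) < ε / 2 := by
        rw [← hφ c, hφd]
        exact hc
      have h2 : dist (x c) (midpoint ℝ (x a) (x b)) = dist (y c) (midpoint ℝ (y a) (y b)) := by
        have h3 := h 1 (-(1 / 2)) (-(1 / 2)) (by ring) c a b
        rw [dist_midpoint_eq, dist_midpoint_eq, h3]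
      rw [hφ, hφ, zero_add]
      calc dist (φ (midpoint ℝ (y a) (y b))) (midpoint ℝ (x a) (x b))
          ≤ dist (φ (midpoint ℝ (y a) (y b))) (x c) + dist (x c) (midpoint ℝ (x a) (x b)) :=
            dist_triangle _ _ _
        _ ≤ ε / 2 + ε / 2 := by
            apply add_le_add h1.le
            rw [h2, dist_comm]
            exact hc.le
        _ = ε := add_halves ε
  let A : Y →ᵃ[ℝ] X := AffineMap.ofMapMidpoint φ hmid hφc
  refine ⟨⟨A, ?_⟩, hφ⟩
  intro v
  have h1 : A.linear v = φ v - φ 0 := by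
    have := A.linearMap_vsub v 0
    simp only [vsub_eq_sub, sub_zero] at this
    exact this
  rw [h1, ← dist_eq_norm, hφd, dist_zero_right]

end UnivAct
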