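import Mathlib
import Pool.Agent.Lib.MP_a2e83c_al.Aff

/-!
# Near embeddings of finite pieces of an isometric action
-/

namespace UnivAct

open Classical

section

variable {H : Type*} [Group H] {Y : Type*} [NormedAddCommGroup Y] [NormedSpace ℝ Y]
  [MulAction H Y] [IsIsometricSMul H Y]

theorem AffFun.smul {u : Y → ℝ} (hu : u ∈ AffFun Y) (h : H) : (fun y => u (h • y)) ∈ AffFun Y :=
  AffFun.comp hu (IsometryEquiv.constSMul h)

/-- A near embedding of a finite piece. -/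
structure Good (G : Subgroup GG) (Ls : Set (Pt → ℝ)) (K : Subgroup H) (ι : H → GG) (m : ℕ)
    (y : ℕ → Y) (p : ℕ → Pt) (ε : ℝ) : Prop where
  memG : ∀ h ∈ K, ι h ∈ G
  mul : ∀ a ∈ K, ∀ b ∈ K, ι (a * b) = ι a * ι b
  inj : ∀ a ∈ K, ι a = 1 → a = 1
  pG : ∀ i, (p i).1 ∈ G
  fwd : ∀ f ∈ Ls, ∃ u ∈ AffFun Y, ∀ h ∈ K, ∀ i ≤ m, |f (tr (ι h) (p i)) - u (h • y i)| ≤ ε
  bwd : ∀ u ∈ AffFun Y, ∃ f ∈ Ls, ∀ h ∈ K, ∀ i ≤ m, |f (tr (ι h) (p i)) - u (h • y i)| ≤ ε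

theorem round_approx (q : ℕ) (hq : 0 < q) (x : ℝ) :
    |(((round (q * x) : ℤ) : ℚ) / (q : ℚ) : ℚ) - x| ≤ 1 / q := by
  have hq' : (0 : ℝ) < q := by exact_mod_cast hq
  push_cast
  have h1 := abs_sub_round ((q : ℝ) * x)
  have h2 : ((round ((q : ℝ) * x) : ℤ) : ℝ) / q - x = -(((q : ℝ) * x - round ((q : ℝ) * x)) / q) := by
    field_simp
    ring
  rw [h2, abs_neg, abs_div, abs_of_pos hq']
  apply div_le_div_of_nonneg_right _ hq'.le
  linarith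

theorem good_fresh (G : Subgroup GG) (Ls : Set (Pt → ℝ))
    (hstar : ∀ f ∈ Ls, ∀ a c0 : ℝ, 0 ≤ a → a ≤ 1 → (fun x => a * f x + c0) ∈ Ls)
    (hfresh : ∀ F, Valid F → ∃ (N : ℕ) (ι : F.2.2.1 →* GG), Function.Injective ι ∧
      (∀ h, ι h ∈ G) ∧
      (∀ f ∈ Ls, ∃ a ∈ castCl F.2.2.2, ∃ l c0 : ℝ, 0 ≤ l ∧ l ≤ 1 ∧
        ∀ (h : F.2.2.1) (i : Fin (F.2.1 + 1)), f (ι h, N + i) = l * a (h, i) + c0) ∧
      (∀ a ∈ castCl F.2.2.2, ∃ f ∈ Ls, ∀ (h : F.2.2.1) (i : Fin (F.2.1 + 1)),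
        f (ι h, N + i) = a (h, i)))
    (K : Subgroup H) [Finite K] (m : ℕ) (y : ℕ → Y) {ε : ℝ} (hε : 0 < ε) :
    ∃ (ι : H → GG) (p : ℕ → Pt), Good G Ls K ι m y p ε := by
  -- Cayley
  let n := Nat.card K
  let e : K ≃ Fin n := Finite.equivFin K
  let ψ : K →* Equiv.Perm (Fin n) := (e.permCongrHom.toMonoidHom).comp (MulAction.toPermHom K K)
  have hψ : Function.Injective ψ := by
    intro a b hab
    exact MulAction.toPerm_injective (e.permCongrHom.injective hab)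
  let H' : Subgroup (Equiv.Perm (Fin n)) := ψ.range
  let θ : K ≃* H' := MonoidHom.ofInjective hψ
  -- bounds
  obtain ⟨B, hB⟩ : ∃ B : ℝ, ∀ (k : K) (i : Fin (m + 1)), ‖(k : H) • y i - y 0‖ ≤ B := by
    obtain ⟨B, hB⟩ := (Set.finite_range (fun x : K × Fin (m + 1) =>
      ‖(x.1 : H) • y x.2 - y 0‖)).bddAbove
    exact ⟨B, fun k i => hB ⟨(k, i), rfl⟩⟩
  have hB0 : 0 ≤ B := (norm_nonneg _).trans (hB 1 0)
  obtain ⟨q0, hq0⟩ := exists_nat_gt (1 / ε)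
  have hq0' : (0 : ℝ) < q0 := lt_trans (by positivity) hq0
  have hqpos : 0 < q0 := by exact_mod_cast hq0'
  have hqε : 1 / (q0 : ℝ) ≤ ε := by
    rw [div_le_iff₀ hq0']
    rw [div_lt_iff₀ hε] at hq0
    linarith
  obtain ⟨N, hN⟩ := exists_nat_ge ((q0 : ℝ) * B + 1)
  let V : Finset ℚ := (Finset.Icc (-(N : ℤ)) N).image (fun z : ℤ => (z : ℚ) / (q0 : ℚ))
  have hV0 : (0 : ℚ) ∈ V := by
    rw [Finset.mem_image]
    exact ⟨0, by simp, by simp⟩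
  have hVround : ∀ x : ℝ, |x| ≤ B → ((round ((q0 : ℝ) * x) : ℤ) : ℚ) / (q0 : ℚ) ∈ V := by
    intro x hx
    rw [Finset.mem_image]
    refine ⟨round ((q0 : ℝ) * x), ?_, rfl⟩
    have h1 := abs_sub_round ((q0 : ℝ) * x)
    have h2 := abs_le.mp h1
    have h3 := abs_le.mp hx
    have h4 : (q0 : ℝ) * x ≤ q0 * B := mul_le_mul_of_nonneg_left h3.2 hq0'.le
    have h5 : -((q0 : ℝ) * B) ≤ q0 * x := by
      have := mul_le_mul_of_nonneg_left h3.1 hq0'.le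
      linarith
    have h6 : ((round ((q0 : ℝ) * x) : ℤ) : ℝ) ≤ N := by linarith [h2.1]
    have h7 : -(N : ℝ) ≤ ((round ((q0 : ℝ) * x) : ℤ) : ℝ) := by linarith [h2.2]
    rw [Finset.mem_Icc]
    constructor
    · exact_mod_cast h7
    · exact_mod_cast h6
  have : Fintype H' := Fintype.ofFinite _
  let 𝓐 : Finset (H' × Fin (m + 1) → ℚ) := (Fintype.piFinset (fun _ => V)).filter
    (fun a => ∃ u ∈ AffFun Y, ∀ (k : K) (i : Fin (m + 1)),
      |((a (θ k, i) : ℚ) : ℝ) - u ((k : H) • y i)| ≤ ε)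
  have h𝓐 : ∀ a, a ∈ 𝓐 ↔ (∀ x, a x ∈ V) ∧ ∃ u ∈ AffFun Y, ∀ (k : K) (i : Fin (m + 1)),
      |((a (θ k, i) : ℚ) : ℝ) - u ((k : H) • y i)| ≤ ε := by
    intro a
    rw [Finset.mem_filter, Fintype.mem_piFinset]
  have hvalid : Valid ⟨n, m, H', 𝓐⟩ := by
    refine ⟨⟨fun _ => 0, ?_, by funext x; simp⟩, ?_⟩
    · rw [h𝓐]
      exact ⟨fun _ => hV0, fun _ => 0, AffFun.zero, fun k i => by simpa using hε.le⟩
    · rintro g _ ⟨a, ha, rfl⟩
      refine ⟨fun x => a (g * x.1, x.2), ?_, rfl⟩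
      have ha' := (h𝓐 a).mp ha
      obtain ⟨hV, u, hu, hau⟩ := ha'
      change (fun x : H' × Fin (m + 1) => a (g * x.1, x.2)) ∈ 𝓐
      rw [h𝓐]
      obtain ⟨k0, rfl⟩ := θ.surjective g
      refine ⟨fun x => hV _, fun y => u ((k0 : H) • y), AffFun.smul hu (k0 : H), fun k i => ?_⟩
      have h1 := hau (k0 * k) i
      rw [map_mul, Subgroup.coe_mul, mul_smul] at h1
      exact h1
  obtain ⟨N0, ι0, hι0, hι0G, hF1, hF2⟩ := hfresh _ hvalid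
  let ι : H → GG := fun h => if hh : h ∈ K then ι0 (θ ⟨h, hh⟩) else 1
  have hι : ∀ h (hh : h ∈ K), ι h = ι0 (θ ⟨h, hh⟩) := fun h hh => dif_pos hh
  have htr : ∀ h (hh : h ∈ K) (i : ℕ), tr (ι h) ((1 : GG), N0 + i) = (ι0 (θ ⟨h, hh⟩), N0 + i) := by
    intro h hh i
    rw [hι h hh]
    simp [tr]
  refine ⟨ι, fun i => (1, N0 + i), ?_, ?_, ?_, ?_, ?_, ?_⟩
  · intro h hh
    rw [hι h hh]
    exact hι0G _
  · intro a ha b hb
    rw [hι a ha, hι b hb, hι (a * b) (K.mul_mem ha hb), ← map_mul, ← map_mul]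
    rfl
  · intro a ha h
    rw [hι a ha] at h
    have h1 := hι0 (h.trans (map_one ι0).symm)
    have h2 := θ.injective (h1.trans (map_one θ).symm)
    exact congrArg Subtype.val h2
  · intro i
    exact G.one_mem
  · intro f hf
    obtain ⟨_, ⟨a, ha, rfl⟩, l, c0, hl0, hl1, hfa⟩ := hF1 f hf
    obtain ⟨_, u, hu, hau⟩ := (h𝓐 a).mp ha
    refine ⟨_, AffFun.star hu l c0 hl0 hl1, fun h hh i hi => ?_⟩
    rw [htr h hh i]
    have h1 := hfa (θ ⟨h, hh⟩) ⟨i, by simp only; omega⟩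
    simp only at h1
    rw [h1]
    have h2 := hau ⟨h, hh⟩ ⟨i, by omega⟩
    simp only at h2
    have h3 : ∀ A U : ℝ, l * A + c0 - (l * U + c0) = l * (A - U) := fun A U => by ring
    rw [h3, abs_mul, abs_of_nonneg hl0]
    calc l * |_| ≤ 1 * ε := mul_le_mul hl1 h2 (abs_nonneg _) zero_le_one
      _ = ε := one_mul ε
  · intro u hu
    let v : H' × Fin (m + 1) → ℝ := fun x => u (((θ.symm x.1 : K) : H) • y x.2) - u (y 0)
    have hvB : ∀ x, |v x| ≤ B := fun x => (AffFun.lip hu _ _).trans (hB _ _)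
    let a : H' × Fin (m + 1) → ℚ := fun x => ((round ((q0 : ℝ) * v x) : ℤ) : ℚ) / (q0 : ℚ)
    have hav : ∀ x, |((a x : ℚ) : ℝ) - v x| ≤ ε := fun x => (round_approx q0 hqpos (v x)).trans hqε
    have ha : a ∈ 𝓐 := by
      rw [h𝓐]
      refine ⟨fun x => hVround _ (hvB x), _, AffFun.star hu 1 (-(u (y 0))) zero_le_one le_rfl,
        fun k i => ?_⟩
      have h1 := hav (θ k, i)
      simp only [v, MulEquiv.symm_apply_apply] at h1
      rw [one_mul, ← sub_eq_add_neg]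
      exact h1
    obtain ⟨f, hf, hfa⟩ := hF2 _ ⟨a, ha, rfl⟩
    refine ⟨_, hstar f hf 1 (u (y 0)) zero_le_one le_rfl, fun h hh i hi => ?_⟩
    rw [htr h hh i]
    have h1 := hfa (θ ⟨h, hh⟩) ⟨i, by simp only; omega⟩
    simp only at h1
    rw [h1]
    have h2 := hav (θ ⟨h, hh⟩, ⟨i, by omega⟩)
    simp only [v, MulEquiv.symm_apply_apply] at h2
    have h3 : ∀ A U C : ℝ, 1 * A + C - U = A - (U - C) := fun A U C => by ring
    rw [h3]
    exact h2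

end

end UnivAct
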