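import Mathlib
import Pool.Agent.Lib.MP_a2e83c_al.Limit

/-!
# The Banach space of the universal action
-/

namespace UnivAct

open Classical Topology BoundedContinuousFunction

/-- The index set of functionals. -/
@[ext]
structure Lam (Ls : Set (Pt → ℝ)) : Type where
  fn : Pt → ℝ
  mem : fn ∈ Ls

instance (Ls : Set (Pt → ℝ)) : TopologicalSpace (Lam Ls) := ⊥

instance (Ls : Set (Pt → ℝ)) : DiscreteTopology (Lam Ls) := ⟨rfl⟩

/-- A point of the ambient set from a group element and a symbol. -/
def pt {G : Subgroup GG} (x : G × ℕ) : Pt := (x.1, x.2)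

theorem exists_space (G : Subgroup GG) (Ls : Set (Pt → ℝ)) [Countable G]
    (hinv : ∀ g ∈ G, ∀ f ∈ Ls, (fun x => f (tr g x)) ∈ Ls)
    (hosc : ∀ x y : Pt, x.1 ∈ G → y.1 ∈ G → ∃ D, ∀ f ∈ Ls, |f x - f y| ≤ D) :
    ∃ (X : Type) (_ : NormedAddCommGroup X) (_ : NormedSpace ℝ X) (_ : MulAction G X)
      (J : G × ℕ → X), CompleteSpace X ∧ TopologicalSpace.SeparableSpace X ∧
      (∀ g : G, Isometry (fun x : X => g • x)) ∧
      (∀ (g : G) (x : G × ℕ), g • J x = J (g * x.1, x.2)) ∧
      (∀ α β γ : ℝ, α + β + γ = 0 → ∀ x y z : G × ℕ,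
        (∀ f ∈ Ls, |α * f (pt x) + β * f (pt y) + γ * f (pt z)| ≤
          ‖α • J x + β • J y + γ • J z‖) ∧
        ∀ C, 0 ≤ C → (∀ f ∈ Ls, |α * f (pt x) + β * f (pt y) + γ * f (pt z)| ≤ C) →
          ‖α • J x + β • J y + γ • J z‖ ≤ C) := by
  let E := Lam Ls →ᵇ ℝ
  let x0 : G × ℕ := (1, 0)
  obtain ⟨J, hJ⟩ : ∃ J : G × ℕ → E, ∀ x (f : Lam Ls), J x f = f.fn (pt x) - f.fn (pt x0) := by
    have h : ∀ x : G × ℕ, ∃ D, ∀ f ∈ Ls, |f (pt x) - f (pt x0)| ≤ D := fun x =>
      hosc (pt x) (pt x0) x.1.2 x0.1.2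
    choose D hD using h
    refine ⟨fun x => BoundedContinuousFunction.ofNormedAddCommGroupDiscrete
      (fun f : Lam Ls => f.fn (pt x) - f.fn (pt x0)) (D x) (fun f => by
        rw [Real.norm_eq_abs]
        exact hD x f.fn f.mem), fun x f => rfl⟩
  -- the permutation of the functionals
  let σ : G → Lam Ls → Lam Ls := fun g f => ⟨fun x => f.fn (tr g x), hinv g g.2 f.fn f.mem⟩
  have hσ : ∀ g f x, (σ g f).fn x = f.fn (tr g x) := fun _ _ _ => rfl
  have hσmul : ∀ g h f, σ (g * h) f = σ h (σ g f) := by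
    intro g h f
    apply Lam.ext
    funext x
    rw [hσ, hσ, hσ]
    exact congrArg f.fn (tr_mul g h x)
  have hσone : ∀ f, σ 1 f = f := by
    intro f
    apply Lam.ext
    funext x
    rw [hσ]
    simp
  obtain ⟨U, hU⟩ : ∃ U : G → (E →ₗᵢ[ℝ] E), ∀ g ξ f, U g ξ f = ξ (σ g f) := by
    refine ⟨fun g =>
      { toFun := fun ξ => ξ.compContinuous ⟨σ g, continuous_of_discreteTopology⟩
        map_add' := fun _ _ => rfl
        map_smul' := fun _ _ => rfl
        norm_map' := ?_ }, fun g ξ f => rfl⟩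
    intro ξ
    apply le_antisymm
    · apply (BoundedContinuousFunction.norm_le (norm_nonneg _)).mpr
      intro f
      exact ξ.norm_coe_le_norm _
    · apply (BoundedContinuousFunction.norm_le (norm_nonneg _)).mpr
      intro f
      have h1 := BoundedContinuousFunction.norm_coe_le_norm
        (ξ.compContinuous ⟨σ g, continuous_of_discreteTopology⟩) (σ g⁻¹ f)
      have h2 : (ξ.compContinuous ⟨σ g, continuous_of_discreteTopology⟩) (σ g⁻¹ f) = ξ f := by
        rw [BoundedContinuousFunction.compContinuous_apply]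
        congr 1
        change σ g (σ g⁻¹ f) = f
        rw [← hσmul, inv_mul_cancel, hσone]
      rw [h2] at h1
      exact h1
  have hUJ : ∀ (g : G) (x : G × ℕ), U g (J x) + J (g, 0) = J (g * x.1, x.2) := by
    intro g x
    ext f
    rw [BoundedContinuousFunction.add_apply, hU, hJ, hJ, hJ, hσ g f (pt x), hσ g f (pt x0)]
    have h1 : tr g (pt x) = pt (g * x.1, x.2) := rfl
    have h2 : tr g (pt x0) = pt (g, 0) := by simp [tr, pt, x0]
    rw [h1, h2]
    ring
  have hJ0 : J x0 = 0 := by
    ext f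
    rw [hJ]
    simp
  let S : Submodule ℝ E := (Submodule.span ℝ (Set.range J)).topologicalClosure
  have hJS : ∀ x, J x ∈ S := fun x =>
    Submodule.le_topologicalClosure _ (Submodule.subset_span ⟨x, rfl⟩)
  have hUS : ∀ g, ∀ ξ ∈ S, U g ξ ∈ S := by
    intro g ξ hξ
    have h1 : Set.MapsTo (U g) (Submodule.span ℝ (Set.range J) : Set E)
        (Submodule.span ℝ (Set.range J) : Set E) := by
      intro ξ hξ
      have h2 : Submodule.span ℝ (Set.range J) ≤
          (Submodule.span ℝ (Set.range J)).comap (U g).toLinearMap := by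
        rw [Submodule.span_le]
        rintro _ ⟨x, rfl⟩
        change U g (J x) ∈ Submodule.span ℝ (Set.range J)
        have h3 := hUJ g x
        have h4 : U g (J x) = J (g * x.1, x.2) - J (g, 0) := by rw [← h3]; abel
        rw [h4]
        exact Submodule.sub_mem _ (Submodule.subset_span ⟨_, rfl⟩) (Submodule.subset_span ⟨_, rfl⟩)
      exact h2 hξ
    exact h1.closure (U g).continuous hξ
  have hUmul : ∀ g h ξ, U (g * h) ξ = U g (U h ξ) := by
    intro g h ξ
    ext f
    rw [hU, hU, hU, hσmul]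
  have hUone : ∀ ξ, U 1 ξ = ξ := by
    intro ξ
    ext f
    rw [hU, hσone]
  let act : MulAction G S :=
    { smul := fun g ξ => ⟨U g ξ.1 + J (g, 0), S.add_mem (hUS g _ ξ.2) (hJS _)⟩
      one_smul := fun ξ => by
        apply Subtype.ext
        change U 1 ξ.1 + J x0 = ξ.1
        rw [hUone, hJ0, add_zero]
      mul_smul := fun g h ξ => by
        apply Subtype.ext
        change U (g * h) ξ.1 + J (g * h, 0) = U g (U h ξ.1 + J (h, 0)) + J (g, 0)
        rw [hUmul, map_add, add_assoc, hUJ g (h, 0)] }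
  have hact : ∀ (g : G) (ξ : S), ((g • ξ : S) : E) = U g ξ.1 + J (g, 0) := fun _ _ => rfl
  have hcomplete : CompleteSpace S :=
    (Submodule.isClosed_topologicalClosure _).completeSpace_coe
  have hsep : TopologicalSpace.SeparableSpace S := by
    have h1 : TopologicalSpace.IsSeparable (S : Set E) := by
      have h2 : TopologicalSpace.IsSeparable (Submodule.span ℝ (Set.range J) : Set E) :=
        (Set.countable_range J).isSeparable.span
      exact h2.closure
    exact h1.separableSpace
  refine ⟨S, inferInstance, inferInstance, act, fun x => ⟨J x, hJS x⟩, hcomplete, hsep, ?_, ?_, ?_⟩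
  · intro g
    apply Isometry.of_dist_eq
    intro ξ η
    rw [Subtype.dist_eq, Subtype.dist_eq]
    change dist (U g ξ.1 + J (g, 0)) (U g η.1 + J (g, 0)) = _
    rw [dist_add_right, (U g).dist_map]
  · intro g x
    apply Subtype.ext
    exact hUJ g x
  · intro α β γ hsum x y z
    have h1 : ∀ f : Lam Ls, (α • J x + β • J y + γ • J z) f =
        α * f.fn (pt x) + β * f.fn (pt y) + γ * f.fn (pt z) := by
      intro f
      change α * J x f + β * J y f + γ * J z f = _
      rw [hJ, hJ, hJ]
      have : γ = -α - β := by linarith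
      rw [this]
      ring
    have h2 : ‖α • (⟨J x, hJS x⟩ : S) + β • (⟨J y, hJS y⟩ : S) + γ • (⟨J z, hJS z⟩ : S)‖ =
        ‖α • J x + β • J y + γ • J z‖ := rfl
    rw [h2]
    constructor
    · intro f hf
      have h3 := (α • J x + β • J y + γ • J z).norm_coe_le_norm ⟨f, hf⟩
      rw [h1, Real.norm_eq_abs] at h3
      exact h3
    · intro C hC h
      apply (BoundedContinuousFunction.norm_le hC).mpr
      intro f
      rw [h1, Real.norm_eq_abs]
      exact h f.fn f.mem

end UnivAct
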