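import Mathlib
import Pool.Agent.Lib.MP_a2e83c_al.Fresh
import Pool.Agent.Lib.MP_a2e83c_al.Space

/-!
# Universality
-/

namespace UnivAct

open Classical Filter Topology

section

variable {H : Type*} [Group H] {Y : Type*} [NormedAddCommGroup Y] [NormedSpace ℝ Y]
  [MulAction H Y] [IsIsometricSMul H Y]

omit [IsIsometricSMul H Y] in
theorem Good.map_one {G : Subgroup GG} {Ls : Set (Pt → ℝ)} {K : Subgroup H} {ι : H → GG} {m : ℕ}
    {y : ℕ → Y} {p : ℕ → Pt} {ε : ℝ} (h : Good G Ls K ι m y p ε) : ι 1 = 1 := by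
  have := h.mul 1 K.one_mem 1 K.one_mem
  rw [mul_one] at this
  exact mul_eq_left.mp this.symm

omit [IsIsometricSMul H Y] in
theorem Good.map_inv {G : Subgroup GG} {Ls : Set (Pt → ℝ)} {K : Subgroup H} {ι : H → GG} {m : ℕ}
    {y : ℕ → Y} {p : ℕ → Pt} {ε : ℝ} (h : Good G Ls K ι m y p ε) {a : H} (ha : a ∈ K) :
    ι a⁻¹ = (ι a)⁻¹ := by
  have := h.mul a⁻¹ (K.inv_mem ha) a ha
  rw [inv_mul_cancel, h.map_one] at this
  exact eq_inv_of_mul_eq_one_left this.symm

theorem tol_succ (n : ℕ) : tol (n + 1) = tol n / 2 := by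
  unfold tol
  rw [pow_succ]
  ring

theorem good_step (G : Subgroup GG) (Ls : Set (Pt → ℝ))
    (hinv : ∀ g ∈ G, ∀ f ∈ Ls, (fun x => f (tr g x)) ∈ Ls)
    (hstar : ∀ f ∈ Ls, ∀ a c0 : ℝ, 0 ≤ a → a ≤ 1 → (fun x => a * f x + c0) ∈ Ls)
    (hhnn : ∀ (E : Subgroup (GG × GG)) (R : Set (Pt × Pt)) (j : ℕ), (E : Set (GG × GG)).Finite →
      R.Finite → (∀ e ∈ E, e.1 ∈ G ∧ e.2 ∈ G) → IsGraph E → (∀ r ∈ R, r.1.1 ∈ G ∧ r.2.1 ∈ G) →
      NearIso Ls E R (tol j) → NearConj G Ls E R (tol j))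
    (hfresh : ∀ F, Valid F → ∃ (N : ℕ) (ι : F.2.2.1 →* GG), Function.Injective ι ∧
      (∀ h, ι h ∈ G) ∧
      (∀ f ∈ Ls, ∃ a ∈ castCl F.2.2.2, ∃ l c0 : ℝ, 0 ≤ l ∧ l ≤ 1 ∧
        ∀ (h : F.2.2.1) (i : Fin (F.2.1 + 1)), f (ι h, N + i) = l * a (h, i) + c0) ∧
      (∀ a ∈ castCl F.2.2.2, ∃ f ∈ Ls, ∀ (h : F.2.2.1) (i : Fin (F.2.1 + 1)),
        f (ι h, N + i) = a (h, i)))
    {K K' : Subgroup H} (hKK : K ≤ K') [Finite K'] {m m' : ℕ} (hm : m ≤ m') (y : ℕ → Y) (n : ℕ)
    {ι : H → GG} {p : ℕ → Pt} (hg : Good G Ls K ι m y p (tol (n + 1))) :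
    ∃ (ι' : H → GG) (p' : ℕ → Pt), Good G Ls K' ι' m' y p' (tol (n + 2)) ∧
      (∀ h ∈ K, ι' h = ι h) ∧ ∀ f ∈ Ls, ∀ i ≤ m, |f (p' i) - f (p i)| ≤ 2 * tol n := by
  obtain ⟨ι1, p1, hg1⟩ := good_fresh G Ls hstar hfresh K' m' y (tol_pos (n + 2))
  let E : Subgroup (GG × GG) :=
    { carrier := {e | ∃ h ∈ K, e = (ι h, ι1 h)}
      mul_mem' := by
        rintro _ _ ⟨a, ha, rfl⟩ ⟨b, hb, rfl⟩
        refine ⟨a * b, K.mul_mem ha hb, ?_⟩
        rw [hg.mul a ha b hb, hg1.mul a (hKK ha) b (hKK hb)]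
        rfl
      one_mem' := ⟨1, K.one_mem, by rw [hg.map_one, hg1.map_one]; rfl⟩
      inv_mem' := by
        rintro _ ⟨a, ha, rfl⟩
        refine ⟨a⁻¹, K.inv_mem ha, ?_⟩
        rw [hg.map_inv ha, hg1.map_inv (hKK ha)]
        rfl }
  have hE : ∀ h ∈ K, (ι h, ι1 h) ∈ E := fun h hh => ⟨h, hh, rfl⟩
  have hKfin : Finite K := Finite.of_injective _ (Subgroup.inclusion_injective hKK)
  have hEfin : (E : Set (GG × GG)).Finite := by
    have h1 : (E : Set (GG × GG)) = Set.range (fun k : K => (ι k, ι1 k)) := by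
      ext e
      constructor
      · rintro ⟨h, hh, rfl⟩
        exact ⟨⟨h, hh⟩, rfl⟩
      · rintro ⟨k, rfl⟩
        exact ⟨k, k.2, rfl⟩
    rw [h1]
    exact Set.finite_range _
  let R : Set (Pt × Pt) := (fun i => (p i, p1 i)) '' Set.Iic m
  have hRfin : R.Finite := (Set.finite_Iic m).image _
  have hsum : tol (n + 1) + tol (n + 2) ≤ tol n := by
    rw [tol_succ (n + 1), tol_succ n]
    have := tol_pos n
    linarith
  have hiso : NearIso Ls E R (tol n) := by
    constructor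
    · intro f hf
      obtain ⟨u, hu, h1⟩ := hg.fwd f hf
      obtain ⟨f', hf', h2⟩ := hg1.bwd u hu
      refine ⟨f', hf', ?_⟩
      rintro _ ⟨h, hh, rfl⟩ _ ⟨i, hi, rfl⟩
      have h3 := h1 h hh i hi
      have h4 := h2 h (hKK hh) i (le_trans hi hm)
      calc |f (tr (ι h) (p i)) - f' (tr (ι1 h) (p1 i))|
          ≤ |f (tr (ι h) (p i)) - u (h • y i)| + |u (h • y i) - f' (tr (ι1 h) (p1 i))| :=
            abs_sub_le _ _ _
        _ ≤ tol (n + 1) + tol (n + 2) := by
            apply add_le_add h3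
            rw [abs_sub_comm]
            exact h4
        _ ≤ tol n := hsum
    · intro f' hf'
      obtain ⟨u, hu, h1⟩ := hg1.fwd f' hf'
      obtain ⟨f, hf, h2⟩ := hg.bwd u hu
      refine ⟨f, hf, ?_⟩
      rintro _ ⟨h, hh, rfl⟩ _ ⟨i, hi, rfl⟩
      have h3 := h1 h (hKK hh) i (le_trans hi hm)
      have h4 := h2 h hh i hi
      calc |f (tr (ι h) (p i)) - f' (tr (ι1 h) (p1 i))|
          ≤ |f (tr (ι h) (p i)) - u (h • y i)| + |u (h • y i) - f' (tr (ι1 h) (p1 i))| :=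
            abs_sub_le _ _ _
        _ ≤ tol (n + 1) + tol (n + 2) := by
            apply add_le_add h4
            rw [abs_sub_comm]
            exact h3
        _ ≤ tol n := hsum
  obtain ⟨t, ht, htE, htR⟩ := hhnn E R n hEfin hRfin
    (by
      rintro _ ⟨h, hh, rfl⟩
      exact ⟨hg.memG h hh, hg1.memG h (hKK hh)⟩)
    ⟨by
      rintro _ ⟨h, hh, rfl⟩ h1
      have h2 := hg.inj h hh h1
      subst h2
      exact hg1.map_one,
     by
      rintro _ ⟨h, hh, rfl⟩ h1
      have h2 := hg1.inj h (hKK hh) h1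
      subst h2
      exact hg.map_one⟩
    (by
      rintro _ ⟨i, _, rfl⟩
      exact ⟨hg.pG i, hg1.pG i⟩)
    hiso
  have hkey : ∀ h i, tr (t⁻¹ * ι1 h * t) (tr t⁻¹ (p1 i)) = tr t⁻¹ (tr (ι1 h) (p1 i)) := by
    intro h i
    rw [← tr_mul, ← tr_mul]
    congr 1
    group
  refine ⟨fun h => t⁻¹ * ι1 h * t, fun i => tr t⁻¹ (p1 i), ⟨?_, ?_, ?_, ?_, ?_, ?_⟩, ?_, ?_⟩
  · intro h hh
    exact G.mul_mem (G.mul_mem (G.inv_mem ht) (hg1.memG h hh)) ht
  · intro a ha b hb
    rw [hg1.mul a ha b hb]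
    group
  · intro a ha h
    apply hg1.inj a ha
    have h1 : t * (t⁻¹ * ι1 a * t) * t⁻¹ = t * 1 * t⁻¹ := by
      rw [h]
    have h2 : t * (t⁻¹ * ι1 a * t) * t⁻¹ = ι1 a := by group
    rw [h2] at h1
    rw [h1]
    group
  · intro i
    exact G.mul_mem (G.inv_mem ht) (hg1.pG i)
  · intro f hf
    obtain ⟨u, hu, h1⟩ := hg1.fwd _ (hinv _ (G.inv_mem ht) f hf)
    refine ⟨u, hu, fun h hh i hi => ?_⟩
    rw [hkey]
    exact h1 h hh i hi
  · intro u hu
    obtain ⟨f1, hf1, h1⟩ := hg1.bwd u hu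
    refine ⟨_, hinv t ht f1 hf1, fun h hh i hi => ?_⟩
    rw [hkey, ← tr_mul t t⁻¹, mul_inv_cancel, tr_one]
    exact h1 h hh i hi
  · intro h hh
    have h1 := htE _ (hE h hh)
    simp only at h1 ⊢
    rw [mul_assoc, ← h1]
    group
  · intro f hf i hi
    have h1 := htR _ (hinv _ (G.inv_mem ht) f hf) (p i, p1 i) ⟨i, hi, rfl⟩
    simp only at h1 ⊢
    rw [← tr_mul t⁻¹ t, inv_mul_cancel, tr_one, abs_sub_comm] at h1
    exact h1

theorem exists_sequence [Countable H] (hH : LocFin H) (G : Subgroup GG) (Ls : Set (Pt → ℝ))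
    (hinv : ∀ g ∈ G, ∀ f ∈ Ls, (fun x => f (tr g x)) ∈ Ls)
    (hstar : ∀ f ∈ Ls, ∀ a c0 : ℝ, 0 ≤ a → a ≤ 1 → (fun x => a * f x + c0) ∈ Ls)
    (hhnn : ∀ (E : Subgroup (GG × GG)) (R : Set (Pt × Pt)) (j : ℕ), (E : Set (GG × GG)).Finite →
      R.Finite → (∀ e ∈ E, e.1 ∈ G ∧ e.2 ∈ G) → IsGraph E → (∀ r ∈ R, r.1.1 ∈ G ∧ r.2.1 ∈ G) →
      NearIso Ls E R (tol j) → NearConj G Ls E R (tol j))
    (hfresh : ∀ F, Valid F → ∃ (N : ℕ) (ι : F.2.2.1 →* GG), Function.Injective ι ∧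
      (∀ h, ι h ∈ G) ∧
      (∀ f ∈ Ls, ∃ a ∈ castCl F.2.2.2, ∃ l c0 : ℝ, 0 ≤ l ∧ l ≤ 1 ∧
        ∀ (h : F.2.2.1) (i : Fin (F.2.1 + 1)), f (ι h, N + i) = l * a (h, i) + c0) ∧
      (∀ a ∈ castCl F.2.2.2, ∃ f ∈ Ls, ∀ (h : F.2.2.1) (i : Fin (F.2.1 + 1)),
        f (ι h, N + i) = a (h, i)))
    (y : ℕ → Y) :
    ∃ (K : ℕ → Subgroup H) (ι : ℕ → H → GG) (p : ℕ → ℕ → Pt), Monotone K ∧
      (∀ h, ∃ n, h ∈ K n) ∧ (∀ n, Good G Ls (K n) (ι n) n y (p n) (tol (n + 1))) ∧
      (∀ n, ∀ h ∈ K n, ι (n + 1) h = ι n h) ∧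
      (∀ n, ∀ f ∈ Ls, ∀ i ≤ n, |f (p (n + 1) i) - f (p n i)| ≤ 2 * tol n) := by
  obtain ⟨e, he⟩ := exists_surjective_nat H
  let K : ℕ → Subgroup H := fun n => Subgroup.closure (e '' Set.Iic n)
  have hKmono : Monotone K := fun a b hab =>
    Subgroup.closure_mono (Set.image_mono (Set.Iic_subset_Iic.mpr hab))
  have hKfin : ∀ n, Finite (K n) := by
    intro n
    apply hH
    exact (Subgroup.fg_iff _).mpr ⟨_, rfl, (Set.finite_Iic n).image e⟩
  have hKall : ∀ h, ∃ n, h ∈ K n := by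
    intro h
    obtain ⟨n, rfl⟩ := he h
    exact ⟨n, Subgroup.subset_closure ⟨n, Set.mem_Iic.mpr le_rfl, rfl⟩⟩
  let St : ℕ → Type _ := fun n =>
    {s : (H → GG) × (ℕ → Pt) // Good G Ls (K n) s.1 n y s.2 (tol (n + 1))}
  have hstart : Nonempty (St 0) := by
    have := hKfin 0
    obtain ⟨ι, p, h⟩ := good_fresh G Ls hstar hfresh (K 0) 0 y (tol_pos 1)
    exact ⟨⟨(ι, p), h⟩⟩
  have hnext : ∀ (n : ℕ) (s : St n), ∃ s' : St (n + 1), (∀ h ∈ K n, s'.1.1 h = s.1.1 h) ∧
      ∀ f ∈ Ls, ∀ i ≤ n, |f (s'.1.2 i) - f (s.1.2 i)| ≤ 2 * tol n := by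
    intro n s
    have := hKfin (n + 1)
    obtain ⟨ι', p', h1, h2, h3⟩ := good_step G Ls hinv hstar hhnn hfresh
      (hKmono (Nat.le_succ n)) (Nat.le_succ n) y n s.2
    exact ⟨⟨(ι', p'), h1⟩, h2, h3⟩
  choose next hn1 hn2 using hnext
  let s : ∀ n, St n := fun n => Nat.rec hstart.some next n
  refine ⟨K, fun n => (s n).1.1, fun n => (s n).1.2, hKmono, hKall, fun n => (s n).2, ?_, ?_⟩
  · intro n
    exact hn1 n (s n)
  · intro n
    exact hn2 n (s n)

end

/-- The universal action, with Hall-type group a subgroup of the permutations of the naturals. -/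
theorem universal_action.{u, v} :
    ∃ (G : Type) (_ : Group G) (X : Type) (_ : NormedAddCommGroup X) (_ : NormedSpace ℝ X)
      (_ : MulAction G X), Countable G ∧ LocFin G ∧ CompleteSpace X ∧
      TopologicalSpace.SeparableSpace X ∧ (∀ g : G, Isometry (fun x : X => g • x)) ∧
      ∀ (H : Type u) [Group H] [Countable H] (_ : LocFin H) (Y : Type v) [NormedAddCommGroup Y]
        [NormedSpace ℝ Y] [TopologicalSpace.SeparableSpace Y] [MulAction H Y]
        (_ : ∀ h : H, Isometry (fun y : Y => h • y)),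
        ∃ (ι : H →* G) (φ : Y →ᵃⁱ[ℝ] X), Function.Injective ι ∧
          ∀ (h : H) (y : Y), φ (h • y) = ι h • φ y := by
  obtain ⟨G, Ls, hGc, hGf, hinv, hstar, hzero, hosc, hhnn, hfresh⟩ := exists_limit
  obtain ⟨X, iX1, iX2, iX3, J, hXc, hXs, hXi, hXJ, hXn⟩ := exists_space G Ls hinv hosc
  refine ⟨G, inferInstance, X, iX1, iX2, iX3, hGc, hGf, hXc, hXs, hXi, ?_⟩
  intro H _ _ hH Y _ _ _ _ hYi
  have : IsIsometricSMul H Y := ⟨hYi⟩
  let y : ℕ → Y := TopologicalSpace.denseSeq Y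
  obtain ⟨K, ι, p, hKmono, hKall, hgood, hιs, hps⟩ :=
    exists_sequence hH G Ls hinv hstar hhnn hfresh y
  -- the limit homomorphism
  have hιstab : ∀ n m, n ≤ m → ∀ h ∈ K n, ι m h = ι n h := by
    intro n m hnm
    induction m, hnm using Nat.le_induction with
    | base => exact fun _ _ => rfl
    | succ m hm ih =>
      intro h hh
      rw [hιs m h (hKmono hm hh), ih h hh]
  choose nn hnn using hKall
  have hι' : ∀ n h, h ∈ K n → ι n h = ι (nn h) h := by
    intro n h hh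
    rcases le_total n (nn h) with hle | hle
    · exact (hιstab _ _ hle h hh).symm
    · exact hιstab _ _ hle h (hnn h)
  let I : H →* G :=
    { toFun := fun h => ⟨ι (nn h) h, (hgood _).memG h (hnn h)⟩
      map_one' := by
        apply Subtype.ext
        exact (hgood _).map_one
      map_mul' := by
        intro a b
        apply Subtype.ext
        change ι (nn (a * b)) (a * b) = ι (nn a) a * ι (nn b) b
        let N := max (nn (a * b)) (max (nn a) (nn b))
        have ha : a ∈ K N := hKmono ((le_max_left _ _).trans (le_max_right _ _)) (hnn a)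
        have hb : b ∈ K N := hKmono ((le_max_right _ _).trans (le_max_right _ _)) (hnn b)
        rw [← hι' N a ha, ← hι' N b hb, ← hι' N (a * b) ((K N).mul_mem ha hb)]
        exact (hgood N).mul a ha b hb }
  have hI : ∀ n h, h ∈ K n → (I h : GG) = ι n h := fun n h hh => (hι' n h hh).symm
  have hIinj : Function.Injective I := by
    rw [injective_iff_map_eq_one]
    intro h hh
    exact (hgood (nn h)).inj h (hnn h) (congrArg Subtype.val hh)
  -- the limit points
  let P : ℕ → ℕ → G × ℕ := fun n i => (⟨(p n i).1, (hgood n).pG i⟩, (p n i).2)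
  have hP : ∀ n i, pt (P n i) = p n i := fun n i => rfl
  have hlim : ∀ i, ∃ q : X, Tendsto (fun n => J (P n i)) atTop (𝓝 q) := by
    intro i
    have hdist : ∀ n, dist (J (P (n + i) i)) (J (P (n + 1 + i) i)) ≤ 2 * (1 / 2) ^ n := by
      intro n
      have h1 := (hXn 1 (-1) 0 (by ring) (P (n + i) i) (P (n + 1 + i) i) (P (n + i) i)).2
        (2 * (1 / 2) ^ n) (by positivity) (by
          intro f hf
          rw [hP, hP]
          have h2 := hps (n + i) f hf i (by omega)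
          have h3 : n + i + 1 = n + 1 + i := by omega
          rw [h3] at h2
          have h4 : 1 * f (p (n + i) i) + -1 * f (p (n + 1 + i) i) + 0 * f (p (n + i) i) =
              -(f (p (n + 1 + i) i) - f (p (n + i) i)) := by ring
          rw [h4, abs_neg]
          refine h2.trans ?_
          unfold tol
          apply mul_le_mul_of_nonneg_left _ (by norm_num)
          exact pow_le_pow_of_le_one (by norm_num) (by norm_num) (by omega))
      rw [dist_eq_norm]
      simpa [sub_eq_add_neg] using h1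
    have hc : CauchySeq (fun n => J (P (n + i) i)) :=
      cauchySeq_of_le_geometric (1 / 2) 2 (by norm_num) hdist
    obtain ⟨q, hq⟩ := cauchySeq_tendsto_of_complete hc
    exact ⟨q, (tendsto_add_atTop_iff_nat i).mp hq⟩
  choose q hq using hlim
  have hact : ∀ (g : G), Continuous (fun x : X => g • x) := fun g => (hXi g).continuous
  -- the two families
  let yy : H × ℕ → Y := fun a => a.1 • y a.2
  let xx : H × ℕ → X := fun a => I a.1 • q a.2
  have hxx : ∀ a : H × ℕ, Tendsto (fun n => J (I a.1 * (P n a.2).1, (P n a.2).2)) atTop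
      (𝓝 (xx a)) := by
    intro a
    have h1 := ((hact (I a.1)).tendsto (q a.2)).comp (hq a.2)
    refine h1.congr fun n => ?_
    exact hXJ (I a.1) (P n a.2)
  have hpt : ∀ (a : H × ℕ) n, a.1 ∈ K n →
      pt (I a.1 * (P n a.2).1, (P n a.2).2) = tr (ι n a.1) (p n a.2) := by
    intro a n ha
    unfold tr
    rw [← hI n a.1 ha]
    rfl
  have hnorm : ∀ α β γ : ℝ, α + β + γ = 0 → ∀ a b c : H × ℕ,
      ‖α • xx a + β • xx b + γ • xx c‖ = ‖α • yy a + β • yy b + γ • yy c‖ := by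
    intro α β γ hs a b c
    have t1 : Tendsto (fun n => ‖α • J (I a.1 * (P n a.2).1, (P n a.2).2) +
        β • J (I b.1 * (P n b.2).1, (P n b.2).2) +
        γ • J (I c.1 * (P n c.2).1, (P n c.2).2)‖) atTop
        (𝓝 ‖α • xx a + β • xx b + γ • xx c‖) :=
      ((((hxx a).const_smul α).add ((hxx b).const_smul β)).add ((hxx c).const_smul γ)).norm
    have t2 : Tendsto (fun n => ‖α • J (I a.1 * (P n a.2).1, (P n a.2).2) +
        β • J (I b.1 * (P n b.2).1, (P n b.2).2) +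
        γ • J (I c.1 * (P n c.2).1, (P n c.2).2)‖) atTop
        (𝓝 ‖α • yy a + β • yy b + γ • yy c‖) := by
      rw [tendsto_iff_dist_tendsto_zero]
      have htol : Tendsto (fun n => (|α| + |β| + |γ|) * tol (n + 1)) atTop (𝓝 0) := by
        have h1 : Tendsto tol atTop (𝓝 0) := by
          unfold tol
          exact tendsto_pow_atTop_nhds_zero_of_lt_one (by norm_num) (by norm_num)
        have h2 := ((tendsto_add_atTop_iff_nat 1).mpr h1).const_mul (|α| + |β| + |γ|)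
        simpa using h2
      apply squeeze_zero' (Eventually.of_forall fun n => dist_nonneg) _ htol
      filter_upwards [eventually_ge_atTop (max (max a.2 (max b.2 c.2))
        (max (nn a.1) (max (nn b.1) (nn c.1))))] with n hn
      have ha : a.1 ∈ K n := hKmono (by omega) (hnn a.1)
      have hb : b.1 ∈ K n := hKmono (by omega) (hnn b.1)
      have hc : c.1 ∈ K n := hKmono (by omega) (hnn c.1)
      have hia : a.2 ≤ n := by omega
      have hib : b.2 ≤ n := by omega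
      have hic : c.2 ≤ n := by omega
      obtain ⟨n1, n2⟩ := hXn α β γ hs (I a.1 * (P n a.2).1, (P n a.2).2)
        (I b.1 * (P n b.2).1, (P n b.2).2) (I c.1 * (P n c.2).1, (P n c.2).2)
      rw [hpt a n ha, hpt b n hb, hpt c n hc] at n1 n2
      have hcomb : ∀ (A A' B B' C C' ε : ℝ), |A - A'| ≤ ε → |B - B'| ≤ ε → |C - C'| ≤ ε →
          |(α * A + β * B + γ * C) - (α * A' + β * B' + γ * C')| ≤ (|α| + |β| + |γ|) * ε := by
        intro A A' B B' C C' ε h1 h2 h3
        have e1 : (α * A + β * B + γ * C) - (α * A' + β * B' + γ * C') =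
            α * (A - A') + β * (B - B') + γ * (C - C') := by ring
        rw [e1]
        calc |α * (A - A') + β * (B - B') + γ * (C - C')|
            ≤ |α * (A - A')| + |β * (B - B')| + |γ * (C - C')| := abs_add_three _ _ _
          _ = |α| * |A - A'| + |β| * |B - B'| + |γ| * |C - C'| := by
              rw [abs_mul, abs_mul, abs_mul]
          _ ≤ |α| * ε + |β| * ε + |γ| * ε := by
              gcongr
          _ = _ := by ring
      have hε := tol_pos (n + 1)
      have up : ‖α • J (I a.1 * (P n a.2).1, (P n a.2).2) +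
          β • J (I b.1 * (P n b.2).1, (P n b.2).2) +
          γ • J (I c.1 * (P n c.2).1, (P n c.2).2)‖ ≤
          ‖α • yy a + β • yy b + γ • yy c‖ + (|α| + |β| + |γ|) * tol (n + 1) := by
        apply n2 _ (by positivity)
        intro f hf
        obtain ⟨u, hu, h1⟩ := (hgood n).fwd f hf
        have h2 := hcomb _ _ _ _ _ _ _ (h1 _ ha _ hia) (h1 _ hb _ hib) (h1 _ hc _ hic)
        have h3 := AffFun.norm_le hu hs (yy a) (yy b) (yy c)
        have h4 := abs_sub_abs_le_abs_sub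
          (α * f (tr (ι n a.1) (p n a.2)) + β * f (tr (ι n b.1) (p n b.2)) +
            γ * f (tr (ι n c.1) (p n c.2)))
          (α * u (yy a) + β * u (yy b) + γ * u (yy c))
        linarith
      have down : ‖α • yy a + β • yy b + γ • yy c‖ ≤
          ‖α • J (I a.1 * (P n a.2).1, (P n a.2).2) +
          β • J (I b.1 * (P n b.2).1, (P n b.2).2) +
          γ • J (I c.1 * (P n c.2).1, (P n c.2).2)‖ + (|α| + |β| + |γ|) * tol (n + 1) := by
        obtain ⟨u, hu, h1⟩ := AffFun.exists_norm (α := α) (β := β) (γ := γ) (yy a) (yy b) (yy c)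
        obtain ⟨f, hf, h2⟩ := (hgood n).bwd u hu
        have h3 := hcomb _ _ _ _ _ _ _ (h2 _ ha _ hia) (h2 _ hb _ hib) (h2 _ hc _ hic)
        have h4 := n1 f hf
        have h5 := abs_sub_abs_le_abs_sub
          (α * u (yy a) + β * u (yy b) + γ * u (yy c))
          (α * f (tr (ι n a.1) (p n a.2)) + β * f (tr (ι n b.1) (p n b.2)) +
            γ * f (tr (ι n c.1) (p n c.2)))
        rw [abs_sub_comm] at h3
        linarith
      rw [Real.dist_eq, abs_le]
      constructor <;> linarith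
    exact tendsto_nhds_unique t1 t2
  have hdense : DenseRange yy := by
    have h1 : DenseRange y := TopologicalSpace.denseRange_denseSeq Y
    apply h1.mono
    rintro _ ⟨i, rfl⟩
    exact ⟨(1, i), one_smul H (y i)⟩
  obtain ⟨φ, hφ⟩ := exists_affineIsometry yy xx hdense hnorm
  refine ⟨I, φ, hIinj, ?_⟩
  intro h v
  refine hdense.induction_on (p := fun v => φ (h • v) = I h • φ v) v ?_ ?_
  · exact isClosed_eq (φ.continuous.comp (hYi h).continuous) ((hact _).comp φ.continuous)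
  · intro a
    have h1 : h • yy a = yy (h * a.1, a.2) := (mul_smul h a.1 (y a.2)).symm
    rw [h1, hφ, hφ]
    change I (h * a.1) • q a.2 = I h • (I a.1 • q a.2)
    rw [map_mul, mul_smul]

end UnivAct
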